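import Pool.Agent.H96R3.AE.NT3

set_option autoImplicit false

namespace Pool.Agent.H96R3.AE

open Finset Pool.Agent.Helper742

lemma exists_m (S n₀ L w : ℕ) (C : ℝ) : ∃ m : ℕ, n₀ ≤ m ∧ w ≤ m ∧ 2 ≤ m ∧ 12 * L ≤ m ∧
    24 * S * C ^ 2 * L ^ 2 < m ∧ 5 * (2 * S * (5 + 12 * Real.log m)) + 2 ≤ 2 * (m : ℝ) := by
  have h1 : ∀ᶠ x : ℝ in Filter.atTop, ‖Real.log x‖ ≤ (1 / (120 * (S + 1) : ℝ)) * ‖id x‖ :=
    Real.isLittleO_log_id_atTop.def (by positivity)
  have h2 : ∀ᶠ m : ℕ in Filter.atTop, ‖Real.log m‖ ≤ (1 / (120 * (S + 1) : ℝ)) * ‖(m : ℝ)‖ :=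
    tendsto_natCast_atTop_atTop.eventually h1
  have h3 : ∀ᶠ m : ℕ in Filter.atTop, 24 * S * C ^ 2 * L ^ 2 < (m : ℝ) :=
    tendsto_natCast_atTop_atTop.eventually (Filter.eventually_gt_atTop _)
  obtain ⟨m, hm1, hm2, hm3, hm4, hm5, hm6, hm7⟩ := (h2.and (h3.and
    ((Filter.eventually_ge_atTop n₀).and ((Filter.eventually_ge_atTop w).and
    ((Filter.eventually_ge_atTop 2).and ((Filter.eventually_ge_atTop (12 * L)).and
    (Filter.eventually_ge_atTop (50 * S + 2)))))))).exists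
  refine ⟨m, hm3, hm4, hm5, hm6, hm2, ?_⟩
  have h4 : Real.log m ≤ (1 / (120 * (S + 1) : ℝ)) * m := by
    have h5 : Real.log m ≤ ‖Real.log m‖ := Real.le_norm_self _
    have h6 : ‖(m : ℝ)‖ = m := by simp
    rw [h6] at hm1
    linarith
  have h5 : 120 * S * Real.log m ≤ m := by
    have h6 : 120 * (S : ℝ) * Real.log m ≤ 120 * S * ((1 / (120 * (S + 1) : ℝ)) * m) := by gcongr
    refine h6.trans ?_
    have h7 : 120 * (S : ℝ) * ((1 / (120 * (S + 1) : ℝ)) * m) = (S / (S + 1)) * m := by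
      field_simp
    rw [h7]
    have h8 : (S : ℝ) / (S + 1) ≤ 1 := by rw [div_le_one (by positivity)]; linarith
    have h9 : (0 : ℝ) ≤ m := by positivity
    nlinarith
  have h6 : (50 * S + 2 : ℝ) ≤ m := by exact_mod_cast hm7
  linarith

theorem nt_lemma (K S n₀ : ℕ) (hK : 1 ≤ K) (hS : 1 ≤ S) : ∃ n, n₀ ≤ n ∧ ∀ s q D : ℕ, 1 ≤ s →
    s ≤ S → n.choose 2 = s + q * D → n ≤ K ^ 2 * q ^ 2 → q ^ 2 ≤ K ^ 2 * n → False := by
  set w := 8 * S + 2 with hw
  set B := w.factorial * S.factorial with hB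
  have hB0 : 0 < B := Nat.mul_pos (Nat.factorial_pos _) (Nat.factorial_pos _)
  set M := 2 * B with hMdef
  have hM0 : 0 < M := by omega
  set L := 2 * K * S with hL
  have hL0 : 1 ≤ L := by
    have : 0 < 2 * K * S := by positivity
    omega
  have hl2 : 0 < Real.log 2 := Real.log_pos (by norm_num)
  set C : ℝ := (1 + Real.log (L * M : ℕ)) / Real.log 2 + 9 with hC
  obtain ⟨m, hm1, hm2, hm3, hm4, hm5, hm6⟩ := exists_m S n₀ L w C
  set z := 2 ^ (m ^ 3) with hz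
  set Y := 2 ^ (8 * m ^ 4) with hY
  set Z := M * Y with hZ
  set X := M * Y ^ 2 with hX
  have hY0 : 0 < Y := by positivity
  have hm0 : (0 : ℝ) < m := by exact_mod_cast (by omega : 0 < m)
  have hm3' : 1 ≤ m ^ 3 := Nat.one_le_pow _ _ (by omega)
  have hmm3 : m ≤ m ^ 3 := Nat.le_self_pow (by norm_num) m
  have hmm4 : m ≤ m ^ 4 := Nat.le_self_pow (by norm_num) m
  have hmz : m ≤ z := (Nat.lt_two_pow_self (n := m)).le.trans
    (Nat.pow_le_pow_right (by norm_num) hmm3)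
  have hmY : m ≤ Y := (Nat.lt_two_pow_self (n := m)).le.trans
    (Nat.pow_le_pow_right (by norm_num) (by omega))
  have hMprime : ∀ p, p.Prime → w < p → ¬ p ∣ M := by
    intro p hp hwp hd
    rw [hMdef, hB] at hd
    rcases (Nat.Prime.dvd_mul hp).1 hd with h | h
    · have := Nat.le_of_dvd (by norm_num) h; omega
    rcases (Nat.Prime.dvd_mul hp).1 h with h | h
    · have := (Nat.Prime.dvd_factorial hp).1 h; omega
    · have := (Nat.Prime.dvd_factorial hp).1 h; omega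
  have hZ1 : 1 ≤ Z := Nat.mul_pos hM0 hY0
  have hLZ : L < Z := by
    have h1 : Y ≤ Z := Nat.le_mul_of_pos_left _ hM0
    omega
  have hlogz : Real.log z = m ^ 3 * Real.log 2 := by
    rw [hz]; push_cast; rw [Real.log_pow]; push_cast; ring
  -- hypothesis U
  have hU : 5 * (2 * S * ∑ p ∈ (Icc 1 z).filter Nat.Prime, (1 : ℝ) / p) + 2 ≤ 2 * m := by
    have h1 := prime_recip_sum (m ^ 3) hm3'
    have h2 : Real.log ((m ^ 3 : ℕ) : ℝ) = 3 * Real.log m := by
      push_cast; rw [Real.log_pow]; norm_num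
    rw [h2] at h1
    have h3 : (S : ℝ) * ∑ p ∈ (Icc 1 z).filter Nat.Prime, (1 : ℝ) / p
        ≤ S * (5 + 4 * (3 * Real.log m)) := by gcongr
    linarith
  -- error
  have hErr : 12 * (z : ℝ) ^ (4 * m + 2) * Real.exp (2 * m) * (L * Z) ≤ X := by
    have h1 : Real.exp (2 * m) ≤ 2 ^ (3 * m) := by
      have h2 : Real.exp 2 ≤ 8 := by
        have h3 : Real.exp 2 = Real.exp 1 * Real.exp 1 := by rw [← Real.exp_add]; norm_num
        have h4 := Real.exp_one_lt_d9
        have h5 := Real.exp_pos 1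
        rw [h3]; nlinarith
      calc Real.exp (2 * m) = Real.exp 2 ^ m := by rw [← Real.exp_nat_mul]; ring_nf
        _ ≤ 8 ^ m := by gcongr
        _ = 2 ^ (3 * m) := by rw [pow_mul]; norm_num
    have h2 : (12 * L : ℝ) ≤ 2 ^ m := by
      have : 12 * L ≤ 2 ^ m := hm4.trans (Nat.lt_two_pow_self (n := m)).le
      exact_mod_cast this
    have h3 : (z : ℝ) ^ (4 * m + 2) = 2 ^ (m ^ 3 * (4 * m + 2)) := by
      rw [hz]; push_cast; rw [← pow_mul]
    have h4 : (2 : ℝ) ^ (m ^ 3 * (4 * m + 2)) * 2 ^ (3 * m) * 2 ^ m ≤ Y := by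
      rw [hY]; push_cast; rw [← pow_add, ← pow_add]
      apply pow_le_pow_right₀ (by norm_num)
      have h5 : 2 * m ^ 3 ≤ m ^ 4 := by
        calc 2 * m ^ 3 ≤ m * m ^ 3 := Nat.mul_le_mul_right _ hm3
          _ = m ^ 4 := by ring
      have h6 : 4 * m ≤ 2 * m ^ 3 := by
        have : 2 * 2 ≤ m * m := Nat.mul_le_mul hm3 hm3
        nlinarith
      nlinarith
    calc 12 * (z : ℝ) ^ (4 * m + 2) * Real.exp (2 * m) * (L * Z)
        = (z : ℝ) ^ (4 * m + 2) * Real.exp (2 * m) * (12 * L) * Z := by ring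
      _ ≤ (2 : ℝ) ^ (m ^ 3 * (4 * m + 2)) * 2 ^ (3 * m) * 2 ^ m * Z := by
          rw [h3]; gcongr
      _ ≤ Y * Z := by gcongr
      _ = X := by rw [hZ, hX]; push_cast; ring
  -- final
  have hfin : 6 * S * ∑ q ∈ Qs z Z L, (q.divisors.card : ℝ) / q < 1 := by
    have h1 := tau_sum z Z L (by omega) hLZ
    set R := ∑ d ∈ rough z (L * Z), (1 : ℝ) / d with hR
    have hR0 : 0 ≤ R := Finset.sum_nonneg (fun d _ => by positivity)
    have h2 : R * Real.log z ≤ 1 + Real.log (L * Z * z : ℕ) := rough_sum_le z (L * Z)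
    have h3 : Real.log (L * Z * z : ℕ) = Real.log (L * M : ℕ) + (8 * m ^ 4 + m ^ 3) * Real.log 2 := by
      have h4 : L * Z * z = (L * M) * 2 ^ (8 * m ^ 4 + m ^ 3) := by
        rw [hZ, hY, hz, pow_add]; ring
      rw [h4]
      rw [Nat.cast_mul (L * M), Real.log_mul]
      · push_cast
        rw [Real.log_pow]
        push_cast
        ring
      · have : 0 < L * M := Nat.mul_pos hL0 hM0
        exact_mod_cast this.ne'
      · positivity
    have hlogLM : 0 ≤ Real.log (L * M : ℕ) := Real.log_natCast_nonneg _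
    have hm1' : (1 : ℝ) ≤ m := by exact_mod_cast (by omega : 1 ≤ m)
    have h5 : R ≤ C * m := by
      rw [h3, hlogz] at h2
      have h6 : R * ((m : ℝ) ^ 3 * Real.log 2) ≤ (C * m) * ((m : ℝ) ^ 3 * Real.log 2) := by
        refine h2.trans ?_
        have h7 : (C * m) * ((m : ℝ) ^ 3 * Real.log 2)
            = (1 + Real.log (L * M : ℕ)) * (m : ℝ) ^ 4 + 9 * m ^ 4 * Real.log 2 := by
          rw [hC]; field_simp
        rw [h7]
        have h8 : (1 : ℝ) ≤ (m : ℝ) ^ 4 := one_le_pow₀ hm1'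
        have h9 : (m : ℝ) ^ 3 ≤ (m : ℝ) ^ 4 := pow_le_pow_right₀ hm1' (by norm_num)
        have h10 : (1 + Real.log (L * M : ℕ)) * 1 ≤ (1 + Real.log (L * M : ℕ)) * (m : ℝ) ^ 4 := by
          gcongr
        have h11 : (m : ℝ) ^ 3 * Real.log 2 ≤ (m : ℝ) ^ 4 * Real.log 2 := by gcongr
        linarith
      exact le_of_mul_le_mul_right h6 (by positivity)
    have h6 : R ^ 2 ≤ (C * m) ^ 2 := by gcongr
    have hlog4 : Real.log 4 = 2 * Real.log 2 := by
      rw [show (4 : ℝ) = 2 ^ 2 by norm_num, Real.log_pow]; norm_num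
    have h7 : Real.log 4 * (L : ℝ) ^ 2 / Real.log z = 2 * L ^ 2 / m ^ 3 := by
      rw [hlog4, hlogz]; field_simp
    rw [h7] at h1
    calc 6 * S * ∑ q ∈ Qs z Z L, (q.divisors.card : ℝ) / q
        ≤ 6 * S * (2 * (R ^ 2 * (2 * L ^ 2 / m ^ 3))) := by gcongr
      _ ≤ 6 * S * (2 * ((C * m) ^ 2 * (2 * L ^ 2 / m ^ 3))) := by gcongr
      _ = (24 * S * C ^ 2 * L ^ 2) / m := by field_simp; ring
      _ < 1 := by rw [div_lt_one hm0]; exact hm5
  obtain ⟨t, htX, hg1, hg2⟩ := exists_good S M z X Z L w m X (by omega) (by omega) hMprime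
    hL0 hZ1 hU hErr hfin
  refine ⟨M * (X + t), ?_, ?_⟩
  · have h1 : Y ≤ Y ^ 2 := Nat.le_self_pow (by norm_num) Y
    have h2 : Y ^ 2 ≤ X := Nat.le_mul_of_pos_left _ hM0
    have h3 : X + t ≤ M * (X + t) := Nat.le_mul_of_pos_left _ hM0
    omega
  intro s q D hs1 hs2 hN hq1 hq2
  set n := M * (X + t) with hn
  have hX0 : 0 < X := by positivity
  have hn0 : 0 < n := Nat.mul_pos hM0 (by omega)
  have hs : s ∈ Icc 1 S := Finset.mem_Icc.2 ⟨hs1, hs2⟩
  have h2N : n * (n - 1) = 2 * n.choose 2 := by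
    rw [Nat.choose_two_right, Nat.mul_div_cancel' (Nat.even_mul_pred_self n).two_dvd]
  have hBN : B ∣ n.choose 2 := by
    have h1 : 2 * n.choose 2 = 2 * (B * ((X + t) * (n - 1))) := by
      rw [← h2N]; rw [hn, hMdef]; ring
    rw [Nat.eq_of_mul_eq_mul_left (by norm_num) h1]
    exact dvd_mul_right _ _
  have hF : F s (M * (X + t) : ℤ) = 2 * (q * D) := by
    have h1 : ((n : ℤ)) * (n - 1) = 2 * (s + q * D) := by
      have h2 : ((n * (n - 1) : ℕ) : ℤ) = ((2 * n.choose 2 : ℕ) : ℤ) := by rw [h2N]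
      rw [hN] at h2
      push_cast [Nat.cast_sub hn0] at h2
      exact h2
    have h3 : ((M : ℤ) * (X + t)) = (n : ℤ) := by rw [hn]; push_cast; ring
    rw [h3]
    unfold F
    linarith
  have hq0 : 0 < q := by
    rcases Nat.eq_zero_or_pos q with h | h
    · rw [h] at hq1; simp at hq1; omega
    · exact h
  set g := Nat.gcd q B with hg
  have hg0 : 0 < g := Nat.gcd_pos_of_pos_left _ hq0
  obtain ⟨q', hq'⟩ : g ∣ q := Nat.gcd_dvd_left q B
  have hgs : g ∣ s := by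
    have h1 : g ∣ n.choose 2 := (Nat.gcd_dvd_right q B).trans hBN
    rw [hN] at h1
    exact (Nat.dvd_add_left ((Nat.gcd_dvd_left q B).mul_right D)).1 h1
  have hgS : g ≤ S := (Nat.le_of_dvd hs1 hgs).trans hs2
  have hq'0 : 0 < q' := Nat.pos_of_ne_zero (by rintro h; rw [h] at hq'; omega)
  have hqF : (q' : ℤ) ∣ F s (M * (X + t) : ℤ) := by
    rw [hF, hq']
    exact ⟨2 * (g * D), by push_cast; ring⟩
  have hprimes : ∀ p, p.Prime → p ∣ q' → z < p := by
    intro p hp hpq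
    have hwp : w < p := by
      by_contra hle
      push Not at hle
      have h1 : p ∣ w.factorial := (Nat.Prime.dvd_factorial hp).2 hle
      have h2 : g ∣ S.factorial := Nat.dvd_factorial hg0 hgS
      have h3 : p * g ∣ B := Nat.mul_dvd_mul h1 h2
      have h4 : p * g ∣ q := by
        rw [hq', mul_comm p g]
        exact Nat.mul_dvd_mul_left g hpq
      have h5 : p * g ∣ g := Nat.dvd_gcd h4 h3
      have h6 := Nat.le_of_dvd hg0 h5
      have h7 : 2 * g ≤ p * g := Nat.mul_le_mul_right g hp.two_le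
      omega
    by_contra hle
    push Not at hle
    apply hg1 p hp hwp hle s hs
    exact (Int.natCast_dvd_natCast.2 hpq).trans hqF
  have hnle : n ≤ 2 * Z ^ 2 := by
    have h1 : M * (X + t) ≤ M * (X + X) := Nat.mul_le_mul_left _ (by omega)
    have h2 : M * (X + X) = 2 * Z ^ 2 := by rw [hX, hZ]; ring
    omega
  have hnge : Z ^ 2 ≤ n := by
    have h1 : M * X ≤ M * (X + t) := Nat.mul_le_mul_left _ (by omega)
    have h2 : M * X = Z ^ 2 := by rw [hX, hZ]; ring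
    omega
  have hqle : q ≤ 2 * K * Z := by
    by_contra h
    push Not at h
    have h1 : (2 * K * Z) ^ 2 < q ^ 2 := Nat.pow_lt_pow_left h (by norm_num)
    have h2 : K ^ 2 * n ≤ K ^ 2 * (2 * Z ^ 2) := Nat.mul_le_mul_left _ hnle
    have h3 : (2 * K * Z) ^ 2 = 2 * (K ^ 2 * (2 * Z ^ 2)) := by ring
    omega
  have hqge : Z ≤ K * q := by
    by_contra h
    push Not at h
    have h1 : (K * q) ^ 2 < Z ^ 2 := Nat.pow_lt_pow_left h (by norm_num)
    have h2 : (K * q) ^ 2 = K ^ 2 * q ^ 2 := by ring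
    omega
  have hqg : q ≤ S * q' := by rw [hq']; exact Nat.mul_le_mul_right _ hgS
  apply hg2 s hs q' _ hqF
  refine Finset.mem_filter.2 ⟨(mem_rough _ _ _).2 ⟨⟨hq'0, ?_⟩, hprimes⟩, ?_⟩
  · have h1 : q' ≤ q := by rw [hq']; exact Nat.le_mul_of_pos_left _ hg0
    calc q' ≤ 2 * K * Z := h1.trans hqle
      _ ≤ 2 * K * Z * S := Nat.le_mul_of_pos_right _ hS
      _ = L * Z := by rw [hL]; ring
  · calc Z ≤ K * q := hqge
      _ ≤ K * (S * q') := Nat.mul_le_mul_left _ hqg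
      _ ≤ 2 * (K * (S * q')) := by omega
      _ = L * q' := by rw [hL]; ring

end Pool.Agent.H96R3.AE
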