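import Mathlib

set_option autoImplicit false

namespace Pool.Agent.H96R3.AE

open Finset

/-- all edges of the complete graph -/
def Ed (n : ℕ) : Finset (Sym2 (Fin n)) := Finset.univ.filter (fun e : Sym2 (Fin n) => ¬ e.IsDiag)

lemma card_Ed (n : ℕ) : (Ed n).card = n.choose 2 := by
  have h := Sym2.card_subtype_not_diag (α := Fin n)
  rw [Fintype.card_fin] at h
  rw [← h, Fintype.card_subtype]
  rfl

variable {n : ℕ}

lemma mem_Ed (a b : Fin n) : s(a, b) ∈ Ed n ↔ a ≠ b := by
  simp [Ed]

/-- neighbours -/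
def nb (A : Finset (Sym2 (Fin n))) (v : Fin n) : Finset (Fin n) :=
  univ.filter (fun u => s(v, u) ∈ A)

open Classical in
/-- edges closing a triangle with the edges of `A` -/
noncomputable def Cl (A : Finset (Sym2 (Fin n))) : Finset (Sym2 (Fin n)) :=
  (Ed n).filter (fun e => ∃ w, ∀ x ∈ e, s(x, w) ∈ A)

lemma mem_Cl (A : Finset (Sym2 (Fin n))) (a b : Fin n) :
    s(a, b) ∈ Cl A ↔ a ≠ b ∧ ∃ w, s(a, w) ∈ A ∧ s(b, w) ∈ A := by
  classical
  simp only [Cl, mem_filter, mem_Ed]
  apply and_congr_right
  intro _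
  apply exists_congr
  intro w
  constructor
  · intro h
    exact ⟨h a (Sym2.mem_mk_left a b), h b (Sym2.mem_mk_right a b)⟩
  · rintro ⟨h1, h2⟩ x hx
    rcases Sym2.mem_iff.1 hx with rfl | rfl
    · exact h1
    · exact h2

lemma Cl_insert (A : Finset (Sym2 (Fin n))) (a b : Fin n) :
    Cl (insert s(a, b) A) ⊆
      Cl A ∪ ((nb A b).image (fun v => s(a, v)) ∪ (nb A a).image (fun v => s(b, v))) := by
  intro e he
  induction e with | _ u v
  rw [mem_Cl] at he
  obtain ⟨huv, w, h1, h2⟩ := he
  rw [Finset.mem_insert] at h1 h2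
  rw [Finset.mem_union, Finset.mem_union, mem_Cl]
  rcases h1 with h1 | h1 <;> rcases h2 with h2 | h2
  · exfalso
    apply huv
    rw [← h2] at h1
    rw [Sym2.eq_iff] at h1
    rcases h1 with h1 | h1
    · exact h1.1
    · rw [h1.1, ← h1.2]
  · right
    rw [Sym2.eq_iff] at h1
    rcases h1 with ⟨rfl, rfl⟩ | ⟨rfl, rfl⟩
    · left
      rw [Finset.mem_image]
      refine ⟨v, ?_, rfl⟩
      simp only [nb, mem_filter, mem_univ, true_and]
      rw [Sym2.eq_swap]; exact h2
    · right
      rw [Finset.mem_image]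
      refine ⟨v, ?_, rfl⟩
      simp only [nb, mem_filter, mem_univ, true_and]
      rw [Sym2.eq_swap]; exact h2
  · right
    rw [Sym2.eq_iff] at h2
    rcases h2 with ⟨rfl, rfl⟩ | ⟨rfl, rfl⟩
    · left
      rw [Finset.mem_image]
      refine ⟨u, ?_, Sym2.eq_swap⟩
      simp only [nb, mem_filter, mem_univ, true_and]
      rw [Sym2.eq_swap]; exact h1
    · right
      rw [Finset.mem_image]
      refine ⟨u, ?_, Sym2.eq_swap⟩
      simp only [nb, mem_filter, mem_univ, true_and]
      rw [Sym2.eq_swap]; exact h1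
  · left
    exact ⟨huv, w, h1, h2⟩

lemma nb_insert_subset (A : Finset (Sym2 (Fin n))) (a b v : Fin n) :
    nb (insert s(a, b) A) v ⊆ nb A v ∪ (if v = a then {b} else if v = b then {a} else ∅) := by
  intro u hu
  simp only [nb, mem_filter, mem_univ, true_and, Finset.mem_insert, Finset.mem_union] at hu ⊢
  rcases hu with hu | hu
  · right
    rw [Sym2.eq_iff] at hu
    rcases hu with ⟨rfl, rfl⟩ | ⟨rfl, rfl⟩
    · simp
    · by_cases h : v = u
      · subst h; simp
      · simp [h]
  · exact Or.inl hu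

lemma nb_insert_card (A : Finset (Sym2 (Fin n))) (a b v : Fin n) :
    (nb (insert s(a, b) A) v).card ≤ (nb A v).card + 1 := by
  refine (Finset.card_le_card (nb_insert_subset A a b v)).trans ?_
  refine (Finset.card_union_le _ _).trans ?_
  gcongr
  split_ifs <;> simp

/-- no triangle -/
def NoTri (A : Finset (Sym2 (Fin n))) : Prop :=
  ∀ x y w, s(x, y) ∈ A → s(y, w) ∈ A → s(x, w) ∈ A → False

lemma NoTri_insert (A : Finset (Sym2 (Fin n))) (hA : A ⊆ Ed n) (h : NoTri A) (e : Sym2 (Fin n))
    (he : e ∈ Ed n) (he2 : e ∉ Cl A) : NoTri (insert e A) := by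
  have hne : ∀ x y, s(x, y) ∈ insert e A → x ≠ y := by
    intro x y hxy
    rw [Finset.mem_insert] at hxy
    rcases hxy with rfl | hxy
    · exact (mem_Ed x y).1 he
    · exact (mem_Ed x y).1 (hA hxy)
  -- an edge equal to `e` together with two other edges
  have key : ∀ x y w, s(x, y) = e → s(x, w) ∈ insert e A → s(y, w) ∈ insert e A → False := by
    intro x y w h1 h2 h3
    have hxw := hne x w h2
    have hyw := hne y w h3
    subst h1
    rw [Finset.mem_insert] at h2 h3
    have h2' : s(x, w) ∈ A := by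
      rcases h2 with h2 | h2
      · rw [Sym2.eq_iff] at h2
        rcases h2 with h2 | h2
        · exact absurd h2.2.symm hyw
        · exact absurd h2.2.symm hxw
      · exact h2
    have h3' : s(y, w) ∈ A := by
      rcases h3 with h3 | h3
      · rw [Sym2.eq_iff] at h3
        rcases h3 with h3 | h3
        · exact absurd h3.2.symm hyw
        · exact absurd h3.2.symm hxw
      · exact h3
    exact he2 ((mem_Cl A x y).2 ⟨(mem_Ed x y).1 he, w, h2', h3'⟩)
  intro x y w h1 h2 h3
  by_cases e1 : s(x, y) = e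
  · exact key x y w e1 h3 h2
  by_cases e2 : s(y, w) = e
  · exact key y w x e2 (by rw [Sym2.eq_swap]; exact h1) (by rw [Sym2.eq_swap]; exact h3)
  by_cases e3 : s(x, w) = e
  · exact key x w y e3 h1 (by rw [Sym2.eq_swap]; exact h2)
  rw [Finset.mem_insert] at h1 h2 h3
  exact h x y w (h1.resolve_left e1) (h2.resolve_left e2) (h3.resolve_left e3)

lemma not_contained (A : Finset (Sym2 (Fin n))) (h : NoTri A) :
    ¬ (⊤ : SimpleGraph (Fin 3)).IsContained (SimpleGraph.fromEdgeSet (A : Set (Sym2 (Fin n)))) := by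
  rintro ⟨f⟩
  have h1 : ∀ i j : Fin 3, i ≠ j → s(f i, f j) ∈ A := by
    intro i j hij
    have := f.toHom.map_adj (show (⊤ : SimpleGraph (Fin 3)).Adj i j from hij)
    rw [SimpleGraph.fromEdgeSet_adj] at this
    exact_mod_cast this.1
  exact h (f 0) (f 1) (f 2) (h1 0 1 (by decide)) (h1 1 2 (by decide)) (h1 0 2 (by decide))

/-- free edges -/
def fr (p : Finset (Sym2 (Fin n)) × Finset (Sym2 (Fin n))) : Finset (Sym2 (Fin n)) :=
  Ed n \ (p.1 ∪ p.2)

/-- `S` is (the set of Avoider's positions of) a winning strategy of Enforcer -/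
def IsWin (n b : ℕ) (S : Set (Finset (Sym2 (Fin n)) × Finset (Sym2 (Fin n)))) : Prop :=
  ((∅ : Finset (Sym2 (Fin n))), (∅ : Finset (Sym2 (Fin n)))) ∈ S ∧
            ∀ p ∈ S,
              ((Finset.univ.filter (fun e : Sym2 (Fin n) => ¬ e.IsDiag)) \ (p.1 ∪ p.2) = ∅ →
                (⊤ : SimpleGraph (Fin 3)).IsContained
                  (SimpleGraph.fromEdgeSet (p.1 : Set (Sym2 (Fin n))))) ∧
              ∀ e ∈ (Finset.univ.filter (fun e : Sym2 (Fin n) => ¬ e.IsDiag)) \ (p.1 ∪ p.2),
                ∃ T : Finset (Sym2 (Fin n)),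
                  T ⊆ (Finset.univ.filter (fun e : Sym2 (Fin n) => ¬ e.IsDiag)) \ (insert e (p.1 ∪ p.2)) ∧
                  T.card = min b ((Finset.univ.filter (fun e : Sym2 (Fin n) => ¬ e.IsDiag)) \ (insert e (p.1 ∪ p.2))).card ∧
                  (insert e p.1, p.2 ∪ T) ∈ S

lemma step {b : ℕ} {S : Set (Finset (Sym2 (Fin n)) × Finset (Sym2 (Fin n)))} (hS : IsWin n b S)
    (p : Finset (Sym2 (Fin n)) × Finset (Sym2 (Fin n))) (hp : p ∈ S) (e : Sym2 (Fin n))
    (he : e ∈ fr p) :
    ∃ p' ∈ S, p'.1 = insert e p.1 ∧ (fr p').card = (fr p).card - (b + 1) := by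
  obtain ⟨T, hT1, hT2, hT3⟩ := (hS.2 p hp).2 e he
  refine ⟨_, hT3, rfl, ?_⟩
  have h1 : Ed n \ (insert e (p.1 ∪ p.2)) = (fr p).erase e := by
    ext x
    simp only [fr, Finset.mem_sdiff, Finset.mem_insert, Finset.mem_union, Finset.mem_erase]
    tauto
  have h2 : fr (insert e p.1, p.2 ∪ T) = (Ed n \ (insert e (p.1 ∪ p.2))) \ T := by
    ext x
    simp only [fr, Finset.mem_sdiff, Finset.mem_insert, Finset.mem_union]
    tauto
  change T ⊆ Ed n \ (insert e (p.1 ∪ p.2)) at hT1
  change T.card = min b (Ed n \ (insert e (p.1 ∪ p.2))).card at hT2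
  rw [h2, Finset.card_sdiff_of_subset hT1, hT2, h1, Finset.card_erase_of_mem he]
  omega

/-- the last rounds -/
lemma phase2 {b : ℕ} {S : Set (Finset (Sym2 (Fin n)) × Finset (Sym2 (Fin n)))} (hS : IsWin n b S)
    (k r : ℕ) (hr1 : r ≤ b + 1) (hr2 : k * (k - 1) < r) :
    ∀ (j i : ℕ), i + j = k → ∀ p ∈ S, p.1 ⊆ Ed n → NoTri p.1 →
      (∀ v, (nb p.1 v).card ≤ 1 + i) → (Cl p.1).card ≤ i * (i + 1) →
      (fr p).card ≤ j * (b + 1) → ((fr p).card = 0 ∨ ∃ m, (fr p).card = r + m * (b + 1)) →
      False := by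
  intro j
  induction j with
  | zero =>
    intro i _ p hp _ hnt _ _ hf _
    have h0 : fr p = ∅ := by
      rw [← Finset.card_eq_zero]; omega
    exact not_contained p.1 hnt ((hS.2 p hp).1 h0)
  | succ j ih =>
    intro i hij p hp hsub hnt hdeg hcl hf hmod
    by_cases h0 : (fr p).card = 0
    · rw [Finset.card_eq_zero] at h0
      exact not_contained p.1 hnt ((hS.2 p hp).1 h0)
    obtain ⟨m, hm⟩ := hmod.resolve_left h0
    have h1 : i * (i + 1) ≤ k * (k - 1) := by
      have h2 : i + 1 ≤ k := by omega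
      have h3 : i ≤ k - 1 := by omega
      calc i * (i + 1) ≤ (k - 1) * k := Nat.mul_le_mul h3 h2
        _ = k * (k - 1) := Nat.mul_comm _ _
    have h2 : (Cl p.1).card < (fr p).card := by
      have : r ≤ r + m * (b + 1) := Nat.le_add_right _ _
      omega
    obtain ⟨e, he, he2⟩ := Finset.exists_mem_notMem_of_card_lt_card h2
    obtain ⟨p', hp', hp1, hp2⟩ := step hS p hp e he
    have heE : e ∈ Ed n := (Finset.mem_sdiff.1 he).1
    induction e with | _ x y
    refine ih (i + 1) (by omega) p' hp' ?_ ?_ ?_ ?_ ?_ ?_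
    · rw [hp1]
      exact Finset.insert_subset heE hsub
    · rw [hp1]
      exact NoTri_insert p.1 hsub hnt _ heE he2
    · intro v
      rw [hp1]
      refine (nb_insert_card p.1 x y v).trans ?_
      have := hdeg v
      omega
    · rw [hp1]
      refine (Finset.card_le_card (Cl_insert p.1 x y)).trans ?_
      refine (Finset.card_union_le _ _).trans ?_
      have h3 := (Finset.card_union_le ((nb p.1 y).image (fun v => s(x, v)))
        ((nb p.1 x).image (fun v => s(y, v))))
      have h4 := (Finset.card_image_le (s := nb p.1 y) (f := fun v => s(x, v))).trans (hdeg y)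
      have h5 := (Finset.card_image_le (s := nb p.1 x) (f := fun v => s(y, v))).trans (hdeg x)
      calc _ ≤ i * (i + 1) + ((1 + i) + (1 + i)) := by omega
        _ = (i + 1) * (i + 1 + 1) := by ring
    · rw [hp2]
      have : (j + 1) * (b + 1) = j * (b + 1) + (b + 1) := by ring
      omega
    · rw [hp2, hm]
      rcases m with _ | m
      · left; omega
      · right
        refine ⟨m, ?_⟩
        have : (m + 1) * (b + 1) = m * (b + 1) + (b + 1) := by ring
        omega

lemma card_touch (A : Finset (Sym2 (Fin n))) :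
    ∃ W : Finset (Fin n), W.card ≤ 2 * A.card ∧ ∀ v, v ∉ W → nb A v = ∅ := by
  classical
  refine ⟨A.biUnion (fun e => univ.filter (fun x => x ∈ e)), ?_, ?_⟩
  · refine (Finset.card_biUnion_le).trans ?_
    rw [mul_comm]
    apply Finset.sum_le_card_nsmul
    intro e _
    induction e with | _ x y
    have : univ.filter (fun z => z ∈ s(x, y)) ⊆ {x, y} := by
      intro z hz
      simp only [mem_filter, mem_univ, true_and, Sym2.mem_iff] at hz
      simpa using hz
    exact (Finset.card_le_card this).trans Finset.card_le_two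
  · intro v hv
    rw [Finset.eq_empty_iff_forall_notMem]
    intro u hu
    apply hv
    simp only [nb, mem_filter, mem_univ, true_and] at hu
    rw [Finset.mem_biUnion]
    exact ⟨_, hu, by simp⟩

lemma exists_disjoint_edge (A F : Finset (Sym2 (Fin n))) (h : 2 * A.card * n < F.card) :
    ∃ a b : Fin n, s(a, b) ∈ F ∧ nb A a = ∅ ∧ nb A b = ∅ := by
  classical
  obtain ⟨W, hW1, hW2⟩ := card_touch A
  have h1 : ((W ×ˢ (univ : Finset (Fin n))).image (fun z => s(z.1, z.2))).card < F.card := by
    refine lt_of_le_of_lt Finset.card_image_le ?_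
    rw [Finset.card_product, Finset.card_univ, Fintype.card_fin]
    exact lt_of_le_of_lt (Nat.mul_le_mul_right n hW1) h
  obtain ⟨e, he, he2⟩ := Finset.exists_mem_notMem_of_card_lt_card h1
  induction e with | _ a b
  refine ⟨a, b, he, hW2 a ?_, hW2 b ?_⟩
  · intro ha
    apply he2
    rw [Finset.mem_image]
    exact ⟨(a, b), by simp [ha], rfl⟩
  · intro hb
    apply he2
    rw [Finset.mem_image]
    exact ⟨(b, a), by simp [hb], Sym2.eq_swap⟩

/-- Avoider wins if the last round is large enough. -/
theorem avoider_wins (n b k r m : ℕ) (hk : n ^ 3 ≤ k * (b + 1) ^ 2)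
    (hr1 : r ≤ b + 1)
    (hr2 : k * (k - 1) < r) (hN : n.choose 2 = r + m * (b + 1))
    (S : Set (Finset (Sym2 (Fin n)) × Finset (Sym2 (Fin n)))) (hS : IsWin n b S) : False := by
  have main : ∀ (f : ℕ) (j : ℕ), ∀ p ∈ S, (fr p).card = f → p.1 ⊆ Ed n → NoTri p.1 →
      (∀ v, (nb p.1 v).card ≤ 1) → Cl p.1 = ∅ → p.1.card = j →
      (f = 0 ∨ f + j * (b + 1) = n.choose 2) → False := by
    intro f
    induction f using Nat.strong_induction_on with
    | _ f ih =>
    intro j p hp hf hsub hnt hdeg hcl hj hmod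
    by_cases h0 : f = 0
    · rw [h0, Finset.card_eq_zero] at hf
      exact not_contained p.1 hnt ((hS.2 p hp).1 hf)
    have h1 := hmod.resolve_left h0
    by_cases h2 : 2 * j * n < f
    · obtain ⟨x, y, hxy, hx, hy⟩ := exists_disjoint_edge p.1 (fr p) (by rw [hj, hf]; exact h2)
      obtain ⟨p', hp', hp1, hp2⟩ := step hS p hp _ hxy
      have heE : s(x, y) ∈ Ed n := (Finset.mem_sdiff.1 hxy).1
      have hxA : s(x, y) ∉ p.1 := by
        intro h
        exact (Finset.mem_sdiff.1 hxy).2 (Finset.mem_union_left _ h)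
      refine ih (f - (b + 1)) (by omega) (j + 1) p' hp' (by rw [hp2, hf]) ?_ ?_ ?_ ?_ ?_ ?_
      · rw [hp1]
        exact Finset.insert_subset heE hsub
      · rw [hp1]
        exact NoTri_insert p.1 hsub hnt _ heE (by rw [hcl]; exact Finset.notMem_empty _)
      · intro v
        rw [hp1]
        by_cases hvx : v = x
        · subst hvx
          have := nb_insert_card p.1 v y v
          rw [hx] at this
          simpa using this
        by_cases hvy : v = y
        · subst hvy
          have := nb_insert_card p.1 x v v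
          rw [hy] at this
          simpa using this
        have := nb_insert_subset p.1 x y v
        rw [if_neg hvx, if_neg hvy, Finset.union_empty] at this
        exact (Finset.card_le_card this).trans (hdeg v)
      · rw [hp1, ← Finset.subset_empty]
        refine (Cl_insert p.1 x y).trans ?_
        rw [hcl, hx, hy]
        simp
      · rw [hp1, Finset.card_insert_of_notMem hxA, hj]
      · by_cases h3 : f ≤ b + 1
        · left; omega
        · right
          have : (j + 1) * (b + 1) = j * (b + 1) + (b + 1) := by ring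
          omega
    · push Not at h2
      -- switch to phase 2
      have h3 : f ≤ k * (b + 1) := by
        have h4 : 2 * (j * (b + 1)) ≤ n ^ 2 := by
          have h5 : 2 * n.choose 2 ≤ n ^ 2 := by
            rw [Nat.choose_two_right]
            calc 2 * (n * (n - 1) / 2) ≤ n * (n - 1) := Nat.mul_div_le _ _
              _ ≤ n * n := Nat.mul_le_mul_left _ (Nat.sub_le _ _)
              _ = n ^ 2 := by ring
          omega
        have h6 : (2 * j * n) * (b + 1) ≤ (k * (b + 1)) * (b + 1) := by
          calc (2 * j * n) * (b + 1) = (2 * (j * (b + 1))) * n := by ring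
            _ ≤ n ^ 2 * n := Nat.mul_le_mul_right _ h4
            _ = n ^ 3 := by ring
            _ ≤ k * (b + 1) ^ 2 := hk
            _ = (k * (b + 1)) * (b + 1) := by ring
        exact h2.trans (Nat.le_of_mul_le_mul_right h6 (Nat.succ_pos b))
      refine phase2 hS k r hr1 hr2 k 0 (by omega) p hp hsub hnt ?_ ?_ (by rw [hf]; exact h3) ?_
      · intro v; exact hdeg v
      · rw [hcl]; simp
      · right
        have hjm : j ≤ m := by
          by_contra hlt
          push Not at hlt
          have : (m + 1) * (b + 1) ≤ j * (b + 1) := Nat.mul_le_mul_right _ hlt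
          have h7 : (m + 1) * (b + 1) = m * (b + 1) + (b + 1) := by ring
          omega
        obtain ⟨m', rfl⟩ := Nat.exists_eq_add_of_le hjm
        refine ⟨m', ?_⟩
        rw [hf]
        have : (j + m') * (b + 1) = j * (b + 1) + m' * (b + 1) := by ring
        omega
  refine main (n.choose 2) 0 (∅, ∅) hS.1 ?_ (Finset.empty_subset _) ?_ ?_ ?_ rfl (Or.inr (by omega))
  · simp only [fr, Finset.union_empty, Finset.sdiff_empty]
    exact card_Ed n
  · intro x y w h; simp at h
  · intro v; simp [nb]
  · rw [Finset.eq_empty_iff_forall_notMem]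
    intro e he
    induction e with | _ x y
    rw [mem_Cl] at he
    simp at he

end Pool.Agent.H96R3.AE
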