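import Pool.Agent.Helper355.BrunLow

set_option autoImplicit false

namespace Pool.Agent.H96R3.AE

open Finset Pool.Agent.Helper742

/-- `x² - x - 2s` -/
def F (s : ℕ) (x : ℤ) : ℤ := x ^ 2 - x - 2 * s

/-- residues `t` mod `q` with `q ∣ F_s(M(a+t))` -/
def roots (q M a s : ℕ) : Finset ℕ :=
  (range q).filter (fun t => (q : ℤ) ∣ F s (M * (a + t)))

lemma F_sub (s : ℕ) (x y : ℤ) : F s x - F s y = (x - y) * (x + y - 1) := by
  unfold F; ring

lemma F_dvd_congr (s : ℕ) (q : ℤ) (x y : ℤ) (h : q ∣ x - y) : q ∣ F s x ↔ q ∣ F s y := by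
  have h1 : q ∣ F s x - F s y := by rw [F_sub]; exact h.mul_right _
  constructor
  · intro h2
    have := dvd_sub h2 h1
    simpa using this
  · intro h2
    have := dvd_add h1 h2
    simpa using this

lemma card_roots_le (q M a s : ℕ) (hq : 0 < q) (hM : Nat.Coprime q M)
    (hs : ∀ p, p.Prime → p ∣ q → ¬ p ∣ 1 + 8 * s) :
    (roots q M a s).card ≤ q.divisors.card := by
  rcases (roots q M a s).eq_empty_or_nonempty with h0 | ⟨t0, ht0⟩
  · rw [h0]; simp
  simp only [roots, mem_filter, mem_range] at ht0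
  obtain ⟨_, hx0⟩ := ht0
  set x0 : ℤ := M * (a + t0) with hx0def
  apply Finset.card_le_card_of_injOn (fun t => Int.gcd q ((M : ℤ) * (a + (t : ℕ)) - x0))
  · intro t _
    rw [Finset.mem_coe, Nat.mem_divisors]
    refine ⟨?_, hq.ne'⟩
    have := Int.gcd_dvd_left (q : ℤ) ((M : ℤ) * (a + (t : ℕ)) - x0)
    exact_mod_cast this
  · -- injectivity
    have key : ∀ x : ℤ, (q : ℤ) ∣ F s x →
        (q : ℤ) ∣ (Int.gcd q (x - x0) : ℤ) * (x + x0 - 1) := by
      intro x hx
      have h1 : (q : ℤ) ∣ (x - x0) * (x + x0 - 1) := by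
        rw [← F_sub s]; exact dvd_sub hx hx0
      -- gcd = a q + b (x-x0)
      rw [Int.gcd_eq_gcd_ab]
      have : ((q : ℤ) * Int.gcdA q (x - x0) + (x - x0) * Int.gcdB q (x - x0)) * (x + x0 - 1)
          = q * (Int.gcdA q (x - x0) * (x + x0 - 1))
            + (x - x0) * (x + x0 - 1) * Int.gcdB q (x - x0) := by ring
      rw [this]
      exact dvd_add (dvd_mul_right _ _) (h1.mul_right _)
    intro t ht t' ht' heq
    simp only [roots, Finset.coe_filter, mem_range, Set.mem_ofPred_eq] at ht ht'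
    simp only at heq
    set x : ℤ := M * (a + t) with hxdef
    set x' : ℤ := M * (a + t') with hxdef'
    set d := Int.gcd q (x - x0) with hd
    have hdq : (d : ℤ) ∣ q := Int.gcd_dvd_left _ _
    have hdq' : d ∣ q := by exact_mod_cast hdq
    obtain ⟨e, he⟩ := hdq'
    have hd0 : 0 < d := Nat.pos_of_ne_zero (by rintro h; rw [h] at he; omega)
    have h1 : (e : ℤ) ∣ x + x0 - 1 := by
      have := key x ht.2
      rw [← hd] at this
      rw [he] at this
      push_cast at this
      exact (mul_dvd_mul_iff_left (by exact_mod_cast hd0.ne')).1 this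
    have h2 : (e : ℤ) ∣ x' + x0 - 1 := by
      have := key x' ht'.2
      rw [← heq] at this
      rw [he] at this
      push_cast at this
      exact (mul_dvd_mul_iff_left (by exact_mod_cast hd0.ne')).1 this
    have h3 : (d : ℤ) ∣ x - x0 := Int.gcd_dvd_right _ _
    have h4 : (d : ℤ) ∣ x' - x0 := by
      have := Int.gcd_dvd_right (q : ℤ) (x' - x0)
      rw [← heq] at this
      exact this
    have h5 : (e : ℤ) ∣ x - x' := by
      have := dvd_sub h1 h2
      have h : x + x0 - 1 - (x' + x0 - 1) = x - x' := by ring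
      rwa [h] at this
    have h6 : (d : ℤ) ∣ x - x' := by
      have := dvd_sub h3 h4
      have h : x - x0 - (x' - x0) = x - x' := by ring
      rwa [h] at this
    have hcop : IsCoprime (d : ℤ) (e : ℤ) := by
      rw [Nat.isCoprime_iff_coprime]
      apply Nat.Coprime.symm
      apply Nat.coprime_of_dvd
      intro p hp hpe hpd
      have hpq : p ∣ q := by rw [he]; exact hpd.mul_right _
      apply hs p hp hpq
      have hpe' : (p : ℤ) ∣ (e : ℤ) := by exact_mod_cast hpe
      have hpd' : (p : ℤ) ∣ (d : ℤ) := by exact_mod_cast hpd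
      have h7 : (p : ℤ) ∣ 2 * x0 - 1 := by
        have := dvd_sub (hpe'.trans h1) (hpd'.trans h3)
        have h : x + x0 - 1 - (x - x0) = 2 * x0 - 1 := by ring
        rwa [h] at this
      have hpq' : (p : ℤ) ∣ (q : ℤ) := by exact_mod_cast hpq
      have h8 : (p : ℤ) ∣ 1 + 8 * s := by
        have h9 : (1 : ℤ) + 8 * s = (2 * x0 - 1) * (2 * x0 - 1) - 4 * F s x0 := by
          unfold F; ring
        rw [h9]
        exact dvd_sub (h7.mul_right _) ((hpq'.trans hx0).mul_left _)
      exact_mod_cast h8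
    have h10 : (q : ℤ) ∣ x - x' := by
      rw [he]; push_cast
      exact hcop.mul_dvd h6 h5
    have h11 : (q : ℤ) ∣ (t : ℤ) - t' := by
      have h12 : x - x' = M * ((t : ℤ) - t') := by rw [hxdef, hxdef']; ring
      rw [h12] at h10
      have hc : IsCoprime (q : ℤ) (M : ℤ) := by rw [Nat.isCoprime_iff_coprime]; exact hM
      exact hc.dvd_of_dvd_mul_left h10
    have h12 : (t' : ℤ) ≡ t [ZMOD q] := (Int.modEq_iff_dvd).2 h11
    have h13 : t' ≡ t [MOD q] := by exact_mod_cast h12
    exact (Nat.ModEq.eq_of_lt_of_lt h13 ht'.1 ht.1).symm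

/-- sum over a union of residue classes -/
lemma class_sum (q M a s X : ℕ) (hq : 0 < q) (G : ℕ → ℝ) (hG : ∀ t, 0 ≤ G t) :
    ∑ t ∈ (range X).filter (fun t : ℕ => (q : ℤ) ∣ F s (M * (a + t))), G t
      ≤ ∑ t0 ∈ roots q M a s, ∑ j ∈ range (X / q + 1), G (t0 + q * j) := by
  rw [← Finset.sum_product']
  have hinj : Set.InjOn (fun t : ℕ => (t % q, t / q))
      ((range X).filter (fun t : ℕ => (q : ℤ) ∣ F s (M * (a + t))) : Set ℕ) := by
    intro t _ t' _ h
    simp only [Prod.mk.injEq] at h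
    rw [← Nat.mod_add_div t q, ← Nat.mod_add_div t' q, h.1, h.2]
  rw [show (∑ t ∈ (range X).filter (fun t : ℕ => (q : ℤ) ∣ F s (M * (a + t))), G t)
      = ∑ z ∈ ((range X).filter (fun t : ℕ => (q : ℤ) ∣ F s (M * (a + t)))).image
          (fun t : ℕ => (t % q, t / q)), G (z.1 + q * z.2) by
    rw [Finset.sum_image hinj]
    apply Finset.sum_congr rfl
    intro t _
    rw [Nat.mod_add_div]]
  apply Finset.sum_le_sum_of_subset_of_nonneg
  · intro z hz
    rw [Finset.mem_image] at hz
    obtain ⟨t, ht, rfl⟩ := hz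
    rw [Finset.mem_filter, Finset.mem_range] at ht
    rw [Finset.mem_product]
    constructor
    · simp only [roots, mem_filter, mem_range]
      refine ⟨Nat.mod_lt _ hq, ?_⟩
      rw [F_dvd_congr s q _ (M * (a + t))]
      · exact ht.2
      · have : (M : ℤ) * (a + (t % q : ℕ)) - M * (a + t) = M * (-((t : ℤ) - (t % q : ℕ))) := by ring
        rw [this]
        apply Dvd.dvd.mul_left
        rw [dvd_neg]
        have h := Nat.mod_add_div t q
        have h' : (t : ℤ) - (t % q : ℕ) = q * (t / q : ℕ) := by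
          have : (t : ℤ) = (t % q : ℕ) + q * (t / q : ℕ) := by exact_mod_cast h.symm
          linarith
        rw [h']
        exact dvd_mul_right _ _
    · simp only [mem_range]
      have := Nat.div_le_div_right (c := q) ht.1.le
      omega
  · intro z _ _
    exact hG _

lemma mean_shift (u : ℕ → ℕ → ℝ) (p : ℕ) (hp : 0 < p) (hper : ∀ n, u p (n % p) = u p n)
    (q t0 : ℕ) (hq : Nat.Coprime q p) :
    mean (fun p j => u p (t0 + q * j)) p = mean u p := by
  unfold mean
  congr 1
  have hinj : Set.InjOn (fun j => (t0 + q * j) % p) (range p : Set ℕ) := by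
    intro j hj j' hj' h
    simp only [Finset.coe_range, Set.mem_Iio] at hj hj'
    have h1 : t0 + q * j ≡ t0 + q * j' [MOD p] := h
    have h2 : q * j ≡ q * j' [MOD p] := Nat.ModEq.add_left_cancel' t0 h1
    have h3 : j ≡ j' [MOD p] := Nat.ModEq.cancel_left_of_coprime
      (by rw [Nat.gcd_comm]; exact hq) h2
    exact Nat.ModEq.eq_of_lt_of_lt h3 hj hj'
  have himg : (range p).image (fun j => (t0 + q * j) % p) = range p := by
    apply Finset.eq_of_subset_of_card_le
    · intro x hx
      rw [Finset.mem_image] at hx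
      obtain ⟨j, _, rfl⟩ := hx
      exact Finset.mem_range.2 (Nat.mod_lt _ hp)
    · rw [Finset.card_image_of_injOn hinj]
  conv_rhs => rw [← himg, Finset.sum_image hinj]
  apply Finset.sum_congr rfl
  intro j _
  exact (hper _).symm

open Classical in
/-- rough numbers up to `x` -/
noncomputable def rough (z x : ℕ) : Finset ℕ := (Icc 1 x).filter (fun d => ∀ p, p.Prime → p ∣ d → z < p)

lemma rough_sum_le (z x : ℕ) :
    (∑ d ∈ rough z x, (1 : ℝ) / d) * Real.log z ≤ 1 + Real.log (x * z : ℕ) := by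
  rcases Nat.eq_zero_or_pos z with rfl | hz
  · simp
  rcases Nat.eq_zero_or_pos x with rfl | hx
  · simp [rough]
  have h1 : Real.log z ≤ ∑ m ∈ Icc 1 z, (1 : ℝ) / m := by
    have h := log_add_one_le_harmonic z
    rw [harmonic_eq_sum_Icc] at h
    push_cast at h
    have h2 : Real.log z ≤ Real.log (z + 1) := Real.log_le_log (by exact_mod_cast hz) (by linarith)
    simp only [one_div]
    linarith
  have h2 : ∑ m ∈ Icc 1 (x * z), (1 : ℝ) / m ≤ 1 + Real.log (x * z : ℕ) := by
    have h := harmonic_le_one_add_log (x * z)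
    rw [harmonic_eq_sum_Icc] at h
    push_cast at h
    simp only [one_div]
    push_cast
    exact h
  have h3 : (∑ d ∈ rough z x, (1 : ℝ) / d) * (∑ m ∈ Icc 1 z, (1 : ℝ) / m)
      ≤ ∑ m ∈ Icc 1 (x * z), (1 : ℝ) / m := by
    rw [Finset.sum_mul_sum, ← Finset.sum_product']
    have hinj : Set.InjOn (fun w : ℕ × ℕ => w.1 * w.2) ((rough z x ×ˢ Icc 1 z : Finset (ℕ × ℕ)) : Set (ℕ × ℕ)) := by
      rintro ⟨d, m⟩ h ⟨d', m'⟩ h' heq
      simp only [rough, Finset.coe_product, Set.mem_prod, Finset.mem_coe, mem_filter, mem_Icc] at h h'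
      simp only at heq
      have hc : ∀ d m, (∀ p, p.Prime → p ∣ d → z < p) → 1 ≤ m → m ≤ z → Nat.Coprime d m := by
        intro d m h1 h2 h3
        apply Nat.coprime_of_dvd
        intro p hp hpd hpm
        have := h1 p hp hpd
        have := Nat.le_of_dvd h2 hpm
        omega
      have e1 : d ∣ d' := by
        have : d ∣ d' * m' := ⟨m, heq.symm⟩
        exact (hc d m' h.1.2 h'.2.1 h'.2.2).dvd_of_dvd_mul_right this
      have e2 : d' ∣ d := by
        have : d' ∣ d * m := ⟨m', heq⟩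
        exact (hc d' m h'.1.2 h.2.1 h.2.2).dvd_of_dvd_mul_right this
      have e3 : d = d' := Nat.dvd_antisymm e1 e2
      subst e3
      have e4 : m = m' := Nat.eq_of_mul_eq_mul_left (by omega) heq
      rw [e4]
    calc ∑ w ∈ rough z x ×ˢ Icc 1 z, (1 : ℝ) / w.1 * (1 / w.2)
        = ∑ w ∈ rough z x ×ˢ Icc 1 z, (1 : ℝ) / ((w.1 * w.2 : ℕ) : ℝ) := by
          apply Finset.sum_congr rfl
          intro w _
          push_cast
          rw [one_div_mul_one_div]
      _ = ∑ N ∈ (rough z x ×ˢ Icc 1 z).image (fun w : ℕ × ℕ => w.1 * w.2), (1 : ℝ) / (N : ℝ) := by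
          rw [Finset.sum_image hinj]
      _ ≤ _ := by
          apply Finset.sum_le_sum_of_subset_of_nonneg
          · intro N hN
            rw [Finset.mem_image] at hN
            obtain ⟨⟨d, m⟩, h, rfl⟩ := hN
            simp only [rough, Finset.mem_product, mem_filter, mem_Icc] at h ⊢
            exact ⟨Nat.mul_pos h.1.1.1 h.2.1, Nat.mul_le_mul h.1.1.2 h.2.2⟩
          · intro N _ _; positivity
  have h4 : 0 ≤ ∑ d ∈ rough z x, (1 : ℝ) / d := Finset.sum_nonneg (fun d _ => by positivity)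
  calc _ ≤ (∑ d ∈ rough z x, (1 : ℝ) / d) * (∑ m ∈ Icc 1 z, (1 : ℝ) / m) :=
        mul_le_mul_of_nonneg_left h1 h4
    _ ≤ _ := h3.trans h2

/-- primes in a short multiplicative interval -/
lemma prime_sum_le (z c Z L Y : ℕ) (hz : 2 ≤ z) (hc : 1 ≤ c) (hZ : 1 ≤ Z) :
    ∑ p ∈ (Icc 1 Y).filter (fun p => p.Prime ∧ z < p ∧ Z ≤ L * (p * c) ∧ p * c ≤ L * Z),
      (1 : ℝ) / p ≤ Real.log 4 * L ^ 2 / Real.log z := by
  set P := (Icc 1 Y).filter (fun p => p.Prime ∧ z < p ∧ Z ≤ L * (p * c) ∧ p * c ≤ L * Z) with hP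
  have hlz : 0 < Real.log z := Real.log_pos (by exact_mod_cast hz)
  have hc' : (0 : ℝ) < c := by exact_mod_cast hc
  have hZ' : (0 : ℝ) < Z := by exact_mod_cast hZ
  have h1 : ∀ p ∈ P, (1 : ℝ) / p ≤ (L * c / Z) / Real.log z * Real.log p := by
    intro p hp
    rw [hP, mem_filter] at hp
    obtain ⟨_, hpp, hzp, h2, _⟩ := hp
    have hp0 : (0 : ℝ) < p := by exact_mod_cast hpp.pos
    have h3 : (Z : ℝ) ≤ L * (p * c) := by exact_mod_cast h2
    have h4 : Real.log z ≤ Real.log p :=
      Real.log_le_log (by positivity) (by exact_mod_cast hzp.le)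
    have h5 : (1 : ℝ) / p ≤ L * c / Z := by
      rw [div_le_div_iff₀ hp0 hZ']
      nlinarith
    have h6 : (1 : ℝ) ≤ Real.log p / Real.log z := by rw [one_le_div hlz]; exact h4
    calc (1 : ℝ) / p ≤ L * c / Z * 1 := by rw [mul_one]; exact h5
      _ ≤ L * c / Z * (Real.log p / Real.log z) := by gcongr
      _ = _ := by ring
  have h2 : ∑ p ∈ P, Real.log p ≤ Real.log 4 * (L * Z / c) := by
    have h3 := Chebyshev.theta_le_log4_mul_x (x := (L * Z / c : ℝ)) (by positivity)
    refine le_trans ?_ h3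
    rw [Chebyshev.theta_eq_sum_Icc]
    apply Finset.sum_le_sum_of_subset_of_nonneg
    · intro p hp
      rw [hP, mem_filter] at hp
      obtain ⟨_, hpp, _, _, h5⟩ := hp
      rw [mem_filter, mem_Icc]
      refine ⟨⟨by omega, ?_⟩, hpp⟩
      apply Nat.le_floor
      rw [le_div_iff₀ hc']
      exact_mod_cast h5
    · intro p hp _
      rw [mem_filter] at hp
      exact Real.log_nonneg (by exact_mod_cast hp.2.one_le)
  calc ∑ p ∈ P, (1 : ℝ) / p ≤ ∑ p ∈ P, (L * c / Z) / Real.log z * Real.log p :=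
        Finset.sum_le_sum h1
    _ = (L * c / Z) / Real.log z * ∑ p ∈ P, Real.log p := by rw [Finset.mul_sum]
    _ ≤ (L * c / Z) / Real.log z * (Real.log 4 * (L * Z / c)) := by gcongr
    _ = _ := by field_simp

end Pool.Agent.H96R3.AE
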