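import Pool.Agent.H96R3.AE.NT1

set_option autoImplicit false

namespace Pool.Agent.H96R3.AE

open Finset Pool.Agent.Helper742

/-- rough numbers in `[Z/L, LZ]` -/
noncomputable def Qs (z Z L : ℕ) : Finset ℕ := (rough z (L * Z)).filter (fun q => Z ≤ L * q)

lemma mem_rough (z x d : ℕ) :
    d ∈ rough z x ↔ (1 ≤ d ∧ d ≤ x) ∧ ∀ p, p.Prime → p ∣ d → z < p := by
  classical
  simp [rough]

lemma rough_of_dvd (z x d e : ℕ) (h : d ∈ rough z x) (he : e ∣ d) : e ∈ rough z x := by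
  rw [mem_rough] at h ⊢
  have h0 : 0 < e := Nat.pos_of_dvd_of_pos he h.1.1
  exact ⟨⟨h0, (Nat.le_of_dvd h.1.1 he).trans h.1.2⟩, fun p hp hpe => h.2 p hp (hpe.trans he)⟩

lemma triple_sum_le (z Z L : ℕ) (hz : 2 ≤ z) (hZ : 1 ≤ Z) :
    ∑ w ∈ ((Icc 1 (L * Z)) ×ˢ (rough z (L * Z) ×ˢ rough z (L * Z))).filter
      (fun w => w.1.Prime ∧ z < w.1 ∧ Z ≤ L * (w.1 * (w.2.1 * w.2.2)) ∧
        w.1 * (w.2.1 * w.2.2) ≤ L * Z), (1 : ℝ) / (w.1 * (w.2.1 * w.2.2) : ℕ)
    ≤ (∑ d ∈ rough z (L * Z), (1 : ℝ) / d) ^ 2 * (Real.log 4 * L ^ 2 / Real.log z) := by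
  rw [Finset.sum_filter, Finset.sum_product_right]
  have h1 : ∀ x ∈ rough z (L * Z) ×ˢ rough z (L * Z),
      ∑ p ∈ Icc 1 (L * Z), (if p.Prime ∧ z < p ∧ Z ≤ L * (p * (x.1 * x.2)) ∧
        p * (x.1 * x.2) ≤ L * Z then (1 : ℝ) / (p * (x.1 * x.2) : ℕ) else 0)
      ≤ (1 : ℝ) / x.1 * (1 / x.2) * (Real.log 4 * L ^ 2 / Real.log z) := by
    intro x hx
    rw [Finset.mem_product, mem_rough, mem_rough] at hx
    have hc : 1 ≤ x.1 * x.2 := Nat.mul_pos hx.1.1.1 hx.2.1.1
    have h2 := prime_sum_le z (x.1 * x.2) Z L (L * Z) hz hc hZ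
    rw [← Finset.sum_filter]
    calc _ = (1 : ℝ) / x.1 * (1 / x.2) *
          ∑ p ∈ (Icc 1 (L * Z)).filter (fun p => p.Prime ∧ z < p ∧ Z ≤ L * (p * (x.1 * x.2)) ∧
            p * (x.1 * x.2) ≤ L * Z), (1 : ℝ) / p := by
          rw [Finset.mul_sum]
          apply Finset.sum_congr rfl
          intro p _
          push_cast
          simp only [one_div, mul_inv]
          ring
      _ ≤ _ := by gcongr
  refine (Finset.sum_le_sum h1).trans ?_
  rw [← Finset.sum_mul]
  apply le_of_eq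
  congr 1
  rw [sq, Finset.sum_mul_sum, ← Finset.sum_product']

lemma tau_sum (z Z L : ℕ) (hz : 2 ≤ z) (hL : L < Z) :
    ∑ q ∈ Qs z Z L, (q.divisors.card : ℝ) / q
      ≤ 2 * ((∑ d ∈ rough z (L * Z), (1 : ℝ) / d) ^ 2 * (Real.log 4 * L ^ 2 / Real.log z)) := by
  have hZ : 1 ≤ Z := by omega
  set D : Finset (ℕ × ℕ) := (rough z (L * Z) ×ˢ rough z (L * Z)).filter
    (fun w => w.1 * w.2 ∈ Qs z Z L) with hD
  have h1 : ∑ q ∈ Qs z Z L, (q.divisors.card : ℝ) / q
      ≤ ∑ w ∈ D, (1 : ℝ) / (w.1 * w.2 : ℕ) := by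
    rw [← Finset.sum_fiberwise_of_maps_to (s := D) (t := Qs z Z L) (g := fun w => w.1 * w.2)
      (fun w hw => (Finset.mem_filter.1 hw).2)]
    apply Finset.sum_le_sum
    intro q hq
    have hq' : q ∈ rough z (L * Z) := (Finset.mem_filter.1 hq).1
    have hq0 : 0 < q := ((mem_rough _ _ _).1 hq').1.1
    have h2 : q.divisorsAntidiagonal ⊆ D.filter (fun w => w.1 * w.2 = q) := by
      intro w hw
      rw [Nat.mem_divisorsAntidiagonal] at hw
      rw [Finset.mem_filter, hD, Finset.mem_filter, Finset.mem_product]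
      refine ⟨⟨⟨rough_of_dvd _ _ _ _ hq' ⟨w.2, hw.1.symm⟩,
        rough_of_dvd _ _ _ _ hq' ⟨w.1, by rw [← hw.1, mul_comm]⟩⟩, ?_⟩, hw.1⟩
      rw [hw.1]; exact hq
    calc (q.divisors.card : ℝ) / q = ∑ w ∈ q.divisorsAntidiagonal, (1 : ℝ) / (w.1 * w.2 : ℕ) := by
          rw [Finset.sum_congr rfl (g := fun _ => (1 : ℝ) / q)]
          · rw [Finset.sum_const, nsmul_eq_mul, mul_one_div]
            congr 2
            rw [← Nat.map_div_right_divisors, Finset.card_map]
          · intro w hw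
            rw [Nat.mem_divisorsAntidiagonal] at hw
            rw [hw.1]
      _ ≤ _ := Finset.sum_le_sum_of_subset_of_nonneg h2 (fun w _ _ => by positivity)
  refine h1.trans ?_
  set Tr := ((Icc 1 (L * Z)) ×ˢ (rough z (L * Z) ×ˢ rough z (L * Z))).filter
      (fun w => w.1.Prime ∧ z < w.1 ∧ Z ≤ L * (w.1 * (w.2.1 * w.2.2)) ∧
        w.1 * (w.2.1 * w.2.2) ≤ L * Z) with hTr
  have h2 := triple_sum_le z Z L hz hZ
  rw [← hTr] at h2
  have hsplit : D ⊆ D.filter (fun w => w.1 ≠ 1) ∪ D.filter (fun w => w.2 ≠ 1) := by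
    intro w hw
    by_cases h : w.1 = 1
    · apply Finset.mem_union_right
      refine Finset.mem_filter.2 ⟨hw, ?_⟩
      intro h'
      have h3 := (Finset.mem_filter.1 (Finset.mem_filter.1 hw).2).2
      rw [h, h'] at h3
      omega
    · exact Finset.mem_union_left _ (Finset.mem_filter.2 ⟨hw, h⟩)
  have hA : ∑ w ∈ D.filter (fun w => w.1 ≠ 1), (1 : ℝ) / (w.1 * w.2 : ℕ)
      ≤ ∑ w ∈ Tr, (1 : ℝ) / (w.1 * (w.2.1 * w.2.2) : ℕ) := by
    have hinj : Set.InjOn (fun w : ℕ × ℕ => (w.1.minFac, (w.1 / w.1.minFac, w.2)))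
        (D.filter (fun w => w.1 ≠ 1) : Set (ℕ × ℕ)) := by
      rintro ⟨d, e⟩ _ ⟨d', e'⟩ _ h
      simp only [Prod.mk.injEq] at h
      obtain ⟨h3, h4, h5⟩ := h
      have h6 : d.minFac * (d / d.minFac) = d := Nat.mul_div_cancel' (Nat.minFac_dvd d)
      have h7 : d'.minFac * (d' / d'.minFac) = d' := Nat.mul_div_cancel' (Nat.minFac_dvd d')
      rw [Prod.mk.injEq]
      refine ⟨?_, h5⟩
      calc d = d.minFac * (d / d.minFac) := h6.symm
        _ = d'.minFac * (d' / d'.minFac) := by rw [h4, h3]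
        _ = d' := h7
    have himg : ∀ w ∈ D.filter (fun w => w.1 ≠ 1),
        (w.1.minFac * ((w.1 / w.1.minFac) * w.2)) = w.1 * w.2 := by
      intro w _
      rw [← mul_assoc, Nat.mul_div_cancel' (Nat.minFac_dvd _)]
    calc ∑ w ∈ D.filter (fun w => w.1 ≠ 1), (1 : ℝ) / (w.1 * w.2 : ℕ)
        = ∑ w ∈ (D.filter (fun w => w.1 ≠ 1)).image
            (fun w : ℕ × ℕ => (w.1.minFac, (w.1 / w.1.minFac, w.2))),
            (1 : ℝ) / (w.1 * (w.2.1 * w.2.2) : ℕ) := by
          rw [Finset.sum_image hinj]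
          apply Finset.sum_congr rfl
          intro w hw
          simp only
          rw [himg w hw]
      _ ≤ _ := by
          apply Finset.sum_le_sum_of_subset_of_nonneg
          · intro x hx
            rw [Finset.mem_image] at hx
            obtain ⟨w, hw, rfl⟩ := hx
            have hw' := Finset.mem_filter.1 hw
            have hwD := Finset.mem_filter.1 hw'.1
            have hwR := Finset.mem_product.1 hwD.1
            have hwQ := Finset.mem_filter.1 hwD.2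
            have hmd : w.1.minFac ∣ w.1 := Nat.minFac_dvd _
            rw [hTr, Finset.mem_filter, Finset.mem_product, Finset.mem_product]
            simp only
            rw [himg w hw]
            have hm := rough_of_dvd _ _ _ _ hwR.1 hmd
            have hpr := Nat.minFac_prime hw'.2
            refine ⟨⟨?_, ?_, hwR.2⟩, hpr, ?_, hwQ.2, ?_⟩
            · rw [Finset.mem_Icc]; exact ((mem_rough _ _ _).1 hm).1
            · exact rough_of_dvd _ _ _ _ hwR.1 (Nat.div_dvd_of_dvd hmd)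
            · exact ((mem_rough _ _ _).1 hwR.1).2 _ hpr hmd
            · exact ((mem_rough _ _ _).1 hwQ.1).1.2
          · intro x _ _; positivity
  have hB : ∑ w ∈ D.filter (fun w => w.2 ≠ 1), (1 : ℝ) / (w.1 * w.2 : ℕ)
      ≤ ∑ w ∈ Tr, (1 : ℝ) / (w.1 * (w.2.1 * w.2.2) : ℕ) := by
    refine le_trans (le_of_eq ?_) hA
    refine Finset.sum_nbij' (fun w => (w.2, w.1)) (fun w => (w.2, w.1)) ?_ ?_ ?_ ?_ ?_
    · intro w hw
      rw [Finset.mem_filter, hD, Finset.mem_filter, Finset.mem_product] at hw ⊢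
      simp only
      rw [mul_comm w.2 w.1]
      exact ⟨⟨⟨hw.1.1.2, hw.1.1.1⟩, hw.1.2⟩, hw.2⟩
    · intro w hw
      rw [Finset.mem_filter, hD, Finset.mem_filter, Finset.mem_product] at hw ⊢
      simp only
      rw [mul_comm w.2 w.1]
      exact ⟨⟨⟨hw.1.1.2, hw.1.1.1⟩, hw.1.2⟩, hw.2⟩
    · intro w _; rfl
    · intro w _; rfl
    · intro w _
      simp only
      rw [mul_comm w.1 w.2]
  calc ∑ w ∈ D, (1 : ℝ) / (w.1 * w.2 : ℕ)
      ≤ ∑ w ∈ D.filter (fun w => w.1 ≠ 1) ∪ D.filter (fun w => w.2 ≠ 1),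
          (1 : ℝ) / (w.1 * w.2 : ℕ) :=
        Finset.sum_le_sum_of_subset_of_nonneg hsplit (fun w _ _ => by positivity)
    _ ≤ ∑ w ∈ D.filter (fun w => w.1 ≠ 1), (1 : ℝ) / (w.1 * w.2 : ℕ)
        + ∑ w ∈ D.filter (fun w => w.2 ≠ 1), (1 : ℝ) / (w.1 * w.2 : ℕ) := by
        rw [← Finset.sum_union_inter]
        have : 0 ≤ ∑ w ∈ D.filter (fun w => w.1 ≠ 1) ∩ D.filter (fun w => w.2 ≠ 1),
          (1 : ℝ) / (w.1 * w.2 : ℕ) := Finset.sum_nonneg (fun w _ => by positivity)
        linarith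
    _ ≤ _ := by linarith

lemma prime_recip_sum (j : ℕ) (hj : 1 ≤ j) :
    ∑ p ∈ (Icc 1 (2 ^ j)).filter Nat.Prime, (1 : ℝ) / p ≤ 5 + 4 * Real.log j := by
  have h1 : ∀ j : ℕ, 1 ≤ j → ∑ p ∈ (Icc 1 (2 ^ j)).filter Nat.Prime, (1 : ℝ) / p
      ≤ 1 + 4 * ∑ i ∈ Icc 1 (j - 1), (1 : ℝ) / i := by
    intro j hj
    induction j, hj using Nat.le_induction with
    | base =>
      have : (Icc 1 (2 ^ 1)).filter Nat.Prime = {2} := by decide
      rw [this]; norm_num
    | succ j hj ih =>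
      have hj0 : (0 : ℝ) < j := by exact_mod_cast hj
      have hl2 : 0 < Real.log 2 := Real.log_pos (by norm_num)
      have hsub : (Icc 1 (2 ^ (j + 1))).filter Nat.Prime ⊆ (Icc 1 (2 ^ j)).filter Nat.Prime ∪
          (Icc 1 (2 ^ (j + 1))).filter (fun p : ℕ => p.Prime ∧ 2 ^ j < p) := by
        intro p hp
        rw [Finset.mem_filter, Finset.mem_Icc] at hp
        rw [Finset.mem_union, Finset.mem_filter, Finset.mem_filter, Finset.mem_Icc,
          Finset.mem_Icc]
        by_cases h : p ≤ 2 ^ j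
        · left; exact ⟨⟨hp.1.1, h⟩, hp.2⟩
        · right; exact ⟨hp.1, hp.2, by omega⟩
      have h2 : ∑ p ∈ (Icc 1 (2 ^ (j + 1))).filter (fun p : ℕ => p.Prime ∧ 2 ^ j < p), (1 : ℝ) / p
          ≤ 4 * (1 / j) := by
        have h3 : ∀ p ∈ (Icc 1 (2 ^ (j + 1))).filter (fun p : ℕ => p.Prime ∧ 2 ^ j < p),
            (1 : ℝ) / p ≤ 1 / ((2 : ℝ) ^ j * (j * Real.log 2)) * Real.log p := by
          intro p hp
          rw [Finset.mem_filter] at hp
          have hp0 : (0 : ℝ) < p := by exact_mod_cast hp.2.1.pos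
          have h4 : (2 : ℝ) ^ j ≤ p := by exact_mod_cast hp.2.2.le
          have h5 : j * Real.log 2 ≤ Real.log p := by
            rw [← Real.log_pow]
            exact Real.log_le_log (by positivity) h4
          rw [one_div_mul_eq_div, div_le_div_iff₀ hp0 (by positivity)]
          calc 1 * ((2 : ℝ) ^ j * (j * Real.log 2)) ≤ p * Real.log p := by
                rw [one_mul]
                gcongr
            _ = _ := by ring
        have h6 : ∑ p ∈ (Icc 1 (2 ^ (j + 1))).filter (fun p : ℕ => p.Prime ∧ 2 ^ j < p), Real.log p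
            ≤ Real.log 4 * 2 ^ (j + 1) := by
          have h7 := Chebyshev.theta_le_log4_mul_x (x := (2 ^ (j + 1) : ℝ)) (by positivity)
          refine le_trans ?_ h7
          rw [Chebyshev.theta_eq_sum_Icc]
          apply Finset.sum_le_sum_of_subset_of_nonneg
          · intro p hp
            rw [Finset.mem_filter, Finset.mem_Icc] at hp
            rw [mem_filter, mem_Icc]
            refine ⟨⟨by omega, ?_⟩, hp.2.1⟩
            apply Nat.le_floor
            exact_mod_cast hp.1.2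
          · intro p hp _
            rw [mem_filter] at hp
            exact Real.log_nonneg (by exact_mod_cast hp.2.one_le)
        calc _ ≤ ∑ p ∈ (Icc 1 (2 ^ (j + 1))).filter (fun p : ℕ => p.Prime ∧ 2 ^ j < p),
                1 / ((2 : ℝ) ^ j * (j * Real.log 2)) * Real.log p := Finset.sum_le_sum h3
          _ = 1 / ((2 : ℝ) ^ j * (j * Real.log 2)) *
              ∑ p ∈ (Icc 1 (2 ^ (j + 1))).filter (fun p : ℕ => p.Prime ∧ 2 ^ j < p),
                Real.log p := by rw [Finset.mul_sum]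
          _ ≤ 1 / ((2 : ℝ) ^ j * (j * Real.log 2)) * (Real.log 4 * 2 ^ (j + 1)) := by gcongr
          _ = 4 * (1 / j) := by
            have : Real.log 4 = 2 * Real.log 2 := by
              rw [show (4 : ℝ) = 2 ^ 2 by norm_num, Real.log_pow]; norm_num
            rw [this, pow_succ]
            field_simp
            ring
      have h8 : ∑ i ∈ Icc 1 (j + 1 - 1), (1 : ℝ) / i = ∑ i ∈ Icc 1 (j - 1), (1 : ℝ) / i + 1 / j := by
        obtain ⟨i, rfl⟩ := Nat.exists_eq_add_of_le hj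
        rw [show 1 + i + 1 - 1 = i + 1 by omega, show 1 + i - 1 = i by omega,
          Finset.sum_Icc_succ_top (by omega)]
        rw [add_comm 1 i]
      rw [h8]
      calc _ ≤ ∑ p ∈ (Icc 1 (2 ^ j)).filter Nat.Prime ∪
              (Icc 1 (2 ^ (j + 1))).filter (fun p : ℕ => p.Prime ∧ 2 ^ j < p), (1 : ℝ) / p :=
            Finset.sum_le_sum_of_subset_of_nonneg hsub (fun w _ _ => by positivity)
        _ ≤ ∑ p ∈ (Icc 1 (2 ^ j)).filter Nat.Prime, (1 : ℝ) / p + 
              ∑ p ∈ (Icc 1 (2 ^ (j + 1))).filter (fun p : ℕ => p.Prime ∧ 2 ^ j < p), (1 : ℝ) / p := by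
            rw [← Finset.sum_union_inter]
            have : 0 ≤ ∑ p ∈ (Icc 1 (2 ^ j)).filter Nat.Prime ∩
              (Icc 1 (2 ^ (j + 1))).filter (fun p : ℕ => p.Prime ∧ 2 ^ j < p), (1 : ℝ) / p :=
              Finset.sum_nonneg (fun w _ => by positivity)
            linarith
        _ ≤ _ := by linarith
  have h2 := h1 j hj
  have h3 : ∑ i ∈ Icc 1 (j - 1), (1 : ℝ) / i ≤ 1 + Real.log j := by
    have h := harmonic_le_one_add_log j
    rw [harmonic_eq_sum_Icc] at h
    push_cast at h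
    refine le_trans ?_ h
    simp only [one_div]
    apply Finset.sum_le_sum_of_subset_of_nonneg
    · apply Finset.Icc_subset_Icc_right; omega
    · intro i _ _; positivity
  linarith

end Pool.Agent.H96R3.AE
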