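import Pool.Agent.H96R3.AE.NT2

set_option autoImplicit false

namespace Pool.Agent.H96R3.AE

open Finset Pool.Agent.Helper742

/-- product of the `F_s` -/
def PF (S : ℕ) (x : ℤ) : ℤ := ∏ s ∈ Icc 1 S, F s x

open Classical in
/-- local weights -/
noncomputable def uu (S M a p t : ℕ) : ℝ := if (p : ℤ) ∣ PF S (M * (a + t)) then 1 else 0

lemma uu_nonneg (S M a p t : ℕ) : 0 ≤ uu S M a p t := by
  unfold uu; split_ifs <;> norm_num

lemma uu_le_one (S M a p t : ℕ) : uu S M a p t ≤ 1 := by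
  unfold uu; split_ifs <;> norm_num

lemma PF_dvd_iff (S p : ℕ) (hp : p.Prime) (x : ℤ) :
    (p : ℤ) ∣ PF S x ↔ ∃ s ∈ Icc 1 S, (p : ℤ) ∣ F s x := by
  unfold PF
  exact (Nat.prime_iff_prime_int.1 hp).dvd_finsetProd_iff _

lemma uu_per (S M a p : ℕ) (n : ℕ) : uu S M a p (n % p) = uu S M a p n := by
  unfold uu
  have h : (p : ℤ) ∣ PF S (M * (a + (n % p : ℕ))) ↔ (p : ℤ) ∣ PF S (M * (a + n)) := by
    have h0 : (p : ℤ) ∣ (M * (a + (n % p : ℕ)) : ℤ) - (M * (a + n) : ℤ) := by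
      have h1 : (M : ℤ) * (a + (n % p : ℕ)) - M * (a + n) = M * (-((n : ℤ) - (n % p : ℕ))) := by
        ring
      rw [h1]
      apply Dvd.dvd.mul_left
      rw [dvd_neg]
      have h := Nat.mod_add_div n p
      have h' : (n : ℤ) - (n % p : ℕ) = p * (n / p : ℕ) := by
        have : (n : ℤ) = (n % p : ℕ) + p * (n / p : ℕ) := by exact_mod_cast h.symm
        linarith
      rw [h']
      exact dvd_mul_right _ _
    have h2 : PF S (M * (a + (n % p : ℕ))) ≡ PF S (M * (a + n)) [ZMOD p] := by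
      unfold PF
      apply Int.ModEq.prod
      intro s _
      apply Int.ModEq.symm
      rw [Int.modEq_iff_dvd, F_sub]
      exact h0.mul_right _
    exact h2.dvd_iff
  simp only [h]

lemma mean_uu_le (S M a p : ℕ) (hp : p.Prime) (hM : ¬ p ∣ M)
    (hs : ∀ s ∈ Icc 1 S, ¬ p ∣ 1 + 8 * s) : mean (uu S M a) p ≤ 2 * S * (1 / p) := by
  have hp0 : (0 : ℝ) < p := by exact_mod_cast hp.pos
  unfold mean
  rw [mul_one_div]
  apply div_le_div_of_nonneg_right _ hp0.le
  classical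
  have h1 : ∀ t ∈ range p, uu S M a p t
      ≤ ∑ s ∈ Icc 1 S, (if (p : ℤ) ∣ F s (M * (a + t)) then (1 : ℝ) else 0) := by
    intro t _
    unfold uu
    split_ifs with h
    · rw [PF_dvd_iff S p hp] at h
      obtain ⟨s, hs1, hs2⟩ := h
      calc (1 : ℝ) = if (p : ℤ) ∣ F s (M * (a + t)) then (1 : ℝ) else 0 := by rw [if_pos hs2]
        _ ≤ _ := Finset.single_le_sum
          (f := fun s => if (p : ℤ) ∣ F s (M * (a + t)) then (1 : ℝ) else 0)
          (fun s _ => by split_ifs <;> norm_num) hs1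
    · exact Finset.sum_nonneg (fun s _ => by split_ifs <;> norm_num)
  refine (Finset.sum_le_sum h1).trans ?_
  rw [Finset.sum_comm]
  calc ∑ s ∈ Icc 1 S, ∑ t ∈ range p, (if (p : ℤ) ∣ F s (M * (a + t)) then (1 : ℝ) else 0)
      ≤ ∑ s ∈ Icc 1 S, (2 : ℝ) := by
        apply Finset.sum_le_sum
        intro s hs'
        have h2 := card_roots_le p M a s hp.pos ((Nat.Prime.coprime_iff_not_dvd hp).2 hM) (by
          intro q hq hqp
          rw [(Nat.prime_dvd_prime_iff_eq hq hp).1 hqp]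
          exact hs s hs')
        have h3 : p.divisors.card = 2 := by
          rw [hp.divisors, Finset.card_pair hp.one_lt.ne]
        rw [h3] at h2
        rw [← Finset.sum_filter, Finset.sum_const, nsmul_eq_mul, mul_one]
        have h4 : ((range p).filter (fun t : ℕ => (p : ℤ) ∣ F s (M * (a + t)))).card ≤ 2 := h2
        exact_mod_cast h4
    _ = 2 * S := by simp; ring

lemma exp_neg_two_le (x : ℝ) (h0 : 0 ≤ x) (h1 : x ≤ 1 / 2) : Real.exp (-(2 * x)) ≤ 1 - x := by
  rw [Real.exp_neg, inv_le_comm₀ (Real.exp_pos _) (by linarith)]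
  have h2 := Real.add_one_le_exp (2 * x)
  refine le_trans ?_ h2
  rw [inv_le_iff_one_le_mul₀ (by linarith)]
  nlinarith

theorem exists_good (S M z X Z L w m a : ℕ) (hw1 : 8 * S + 2 ≤ w) (hwz : w ≤ z)
    (hM : ∀ p, p.Prime → w < p → ¬ p ∣ M) (hL : 1 ≤ L) (hZ : 1 ≤ Z)
    (hU : 5 * (2 * S * ∑ p ∈ (Icc 1 z).filter Nat.Prime, (1 : ℝ) / p) + 2 ≤ 2 * m)
    (hErr : 12 * (z : ℝ) ^ (4 * m + 2) * Real.exp (2 * m) * (L * Z) ≤ X)
    (hfin : 6 * S * ∑ q ∈ Qs z Z L, (q.divisors.card : ℝ) / q < 1) :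
    ∃ t < X, (∀ p, p.Prime → w < p → p ≤ z → ∀ s ∈ Icc 1 S, ¬ (p : ℤ) ∣ F s (M * (a + t))) ∧
      ∀ s ∈ Icc 1 S, ∀ q ∈ Qs z Z L, ¬ (q : ℤ) ∣ F s (M * (a + t)) := by
  classical
  set T := (Icc 1 z).filter (fun p => p.Prime ∧ w < p) with hT
  have hTp : ∀ p ∈ T, p.Prime ∧ w < p ∧ p ≤ z := by
    intro p hp
    rw [hT, Finset.mem_filter, Finset.mem_Icc] at hp
    exact ⟨hp.2.1, hp.2.2, hp.1.2⟩
  have hz1 : 1 ≤ z := by omega
  set u : ℕ → ℕ → ℝ := uu S M a with hu
  have hmean0 : ∀ p ∈ T, 0 ≤ mean u p := fun p _ =>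
    div_nonneg (Finset.sum_nonneg (fun n _ => uu_nonneg S M a p n)) (by positivity)
  have hmean : ∀ p ∈ T, mean u p ≤ 2 * S * (1 / p) := by
    intro p hp
    obtain ⟨h1, h2, _⟩ := hTp p hp
    apply mean_uu_le S M a p h1 (hM p h1 h2)
    intro s hs hd
    rw [Finset.mem_Icc] at hs
    have := Nat.le_of_dvd (by omega) hd
    omega
  set U := ∑ p ∈ T, mean u p with hUdef
  set V := ∏ p ∈ T, (1 - mean u p) with hVdef
  have hU0 : 0 ≤ U := Finset.sum_nonneg hmean0
  have hUle : U ≤ 2 * S * ∑ p ∈ (Icc 1 z).filter Nat.Prime, (1 : ℝ) / p := by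
    calc U ≤ ∑ p ∈ T, 2 * S * ((1 : ℝ) / p) := Finset.sum_le_sum hmean
      _ = 2 * S * ∑ p ∈ T, (1 : ℝ) / p := by rw [Finset.mul_sum]
      _ ≤ _ := by
        apply mul_le_mul_of_nonneg_left _ (by positivity)
        apply Finset.sum_le_sum_of_subset_of_nonneg
        · intro p hp
          rw [hT, Finset.mem_filter] at hp
          exact Finset.mem_filter.2 ⟨hp.1, hp.2.1⟩
        · intro p _ _; positivity
  have hU2 : 5 * U + 2 ≤ 2 * m := by linarith
  have hV : Real.exp (-(2 * U)) ≤ V := by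
    rw [hUdef, Finset.mul_sum, ← Finset.sum_neg_distrib, Real.exp_sum, hVdef]
    apply Finset.prod_le_prod
    · intro p _; positivity
    · intro p hp
      apply exp_neg_two_le _ (hmean0 p hp)
      refine (hmean p hp).trans ?_
      have h1 : w < p := (hTp p hp).2.1
      have h2 : (4 * S : ℝ) ≤ p := by exact_mod_cast (by omega : 4 * S ≤ p)
      have h3 : (0 : ℝ) < p := by exact_mod_cast (by omega : 0 < p)
      rw [mul_one_div, div_le_iff₀ h3]
      linarith
  have hV0 : 0 < V := lt_of_lt_of_le (Real.exp_pos _) hV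
  have he1 : Real.exp 1 < 3 := by have := Real.exp_one_lt_d9; linarith
  have he2 : 4 * Real.exp (-2) ≤ 1 := by
    have h1 : Real.exp 2 = Real.exp 1 * Real.exp 1 := by rw [← Real.exp_add]; norm_num
    have h2 := Real.exp_one_gt_d9
    rw [Real.exp_neg, ← div_eq_mul_inv, div_le_one (Real.exp_pos _), h1]
    nlinarith
  have hE : ∀ r : ℕ, 2 * m ≤ r → ((Real.exp 1)⁻¹) ^ r * Real.exp (Real.exp 1 * U) ≤ V / 4 := by
    intro r hr
    rw [← Real.exp_neg, ← Real.exp_nat_mul, ← Real.exp_add]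
    have h1 : (r : ℝ) * -1 + Real.exp 1 * U ≤ -2 + -(2 * U) := by
      have h2 : (2 * m : ℝ) ≤ r := by exact_mod_cast hr
      have h3 : Real.exp 1 * U ≤ 3 * U := by gcongr
      linarith
    calc Real.exp ((r : ℝ) * -1 + Real.exp 1 * U) ≤ Real.exp (-2 + -(2 * U)) :=
          Real.exp_le_exp.2 h1
      _ = Real.exp (-2) * Real.exp (-(2 * U)) := Real.exp_add _ _
      _ ≤ Real.exp (-2) * V := by gcongr
      _ ≤ V / 4 := by nlinarith
  have hL' : (1 : ℝ) ≤ L := by exact_mod_cast hL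
  have hZ' : (1 : ℝ) ≤ Z := by exact_mod_cast hZ
  have hLZ : (1 : ℝ) ≤ L * Z := by nlinarith
  have hz1' : (1 : ℝ) ≤ z := by exact_mod_cast hz1
  -- error term
  have hErr2 : 3 * (z : ℝ) ^ (4 * m + 2) ≤ X / (L * Z) / 4 * V := by
    have h1 : Real.exp (-(2 * m)) ≤ V := by
      refine le_trans (Real.exp_le_exp.2 ?_) hV
      have : 2 * U ≤ 2 * m := by nlinarith
      linarith
    have h2 : 12 * (z : ℝ) ^ (4 * m + 2) * Real.exp (2 * m) ≤ X / (L * Z) := by
      rw [le_div_iff₀ (by linarith)]; exact hErr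
    have h3 : Real.exp (2 * m) * Real.exp (-(2 * m : ℝ)) = 1 := by
      rw [← Real.exp_add]; simp
    calc 3 * (z : ℝ) ^ (4 * m + 2)
        = (12 * (z : ℝ) ^ (4 * m + 2) * Real.exp (2 * m)) / 4 * Real.exp (-(2 * m : ℝ)) := by
          linear_combination (-(3 * (z : ℝ) ^ (4 * m + 2))) * h3
      _ ≤ X / (L * Z) / 4 * V := by gcongr
  have hXLZ : (L * Z : ℝ) ≤ X := by
    have h1 : (1 : ℝ) ≤ 12 * (z : ℝ) ^ (4 * m + 2) * Real.exp (2 * m) := by
      have h2 : (1 : ℝ) ≤ (z : ℝ) ^ (4 * m + 2) := one_le_pow₀ hz1'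
      have h3 : (1 : ℝ) ≤ Real.exp (2 * m) := Real.one_le_exp (by positivity)
      nlinarith
    nlinarith
  have hX0 : (0 : ℝ) < X := by linarith
  set G : ℕ → ℝ := fun t => ∏ p ∈ T, (1 - u p t) with hG
  have hG0 : ∀ t, 0 ≤ G t := fun t => Finset.prod_nonneg (fun p _ => by
    have := uu_le_one S M a p t
    simp only [hu]; linarith)
  -- lower bound
  have hA : (1 / 2 : ℝ) * (X * V) ≤ ∑ t ∈ range X, G t := by
    have h1 := Pool.Agent.Helper355.Run.brun_low T z (2 * m) hz1 (even_two_mul m)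
      (fun p hp => ⟨(hTp p hp).1, (hTp p hp).2.2⟩) u (fun p _ n => uu_nonneg S M a p n)
      (fun p _ n => uu_le_one S M a p n) (fun p _ n => uu_per S M a p n) (Real.exp 1)
      (Real.exp_pos 1) X
    rw [← hVdef, ← hUdef] at h1
    have h2 := hE (2 * m) le_rfl
    have h3 : 3 * (z : ℝ) ^ (2 * (2 * m)) ≤ X / (L * Z) / 4 * V := by
      refine le_trans ?_ hErr2
      apply mul_le_mul_of_nonneg_left _ (by norm_num)
      exact pow_le_pow_right₀ hz1' (by omega)
    have h4 : (X : ℝ) / (L * Z) ≤ X := div_le_self hX0.le hLZ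
    have h5 : (X : ℝ) / (L * Z) / 4 * V ≤ X / 4 * V := by gcongr
    have h6 : (X : ℝ) * (V - V / 4) ≤ X * (V - ((Real.exp 1)⁻¹) ^ (2 * m)
        * Real.exp (Real.exp 1 * U)) := by gcongr
    nlinarith
  -- upper bound for a class
  have hB1 : ∀ q ∈ Qs z Z L, ∀ t0 : ℕ, ∑ j ∈ range (X / q + 1), G (t0 + q * j)
      ≤ 3 * (X * V) / q := by
    intro q hq t0
    have hq1 := Finset.mem_filter.1 hq
    have hq2 := (mem_rough _ _ _).1 hq1.1
    have hq0 : (0 : ℝ) < q := by exact_mod_cast hq2.1.1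
    have hqLZ : (q : ℝ) ≤ L * Z := by exact_mod_cast hq2.1.2
    have h1 := brun T z (2 * m + 1) hz1 (odd_two_mul_add_one m)
      (fun p hp => ⟨(hTp p hp).1, (hTp p hp).2.2⟩) (fun p j => u p (t0 + q * j))
      (fun p _ n => uu_nonneg S M a p _)
      (fun p _ n => uu_le_one S M a p _)
      (fun p _ n => by
        simp only [hu]
        rw [← uu_per S M a p (t0 + q * (n % p)), ← uu_per S M a p (t0 + q * n)]
        congr 1
        simp [Nat.add_mod, Nat.mul_mod]) (Real.exp 1)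
      (Real.exp_pos 1) (X / q + 1)
    have hmm : ∀ p ∈ T, mean (fun p j => u p (t0 + q * j)) p = mean u p := by
      intro p hp
      apply mean_shift u p (hTp p hp).1.pos (fun n => uu_per S M a p n)
      rw [Nat.coprime_comm, Nat.Prime.coprime_iff_not_dvd (hTp p hp).1]
      intro hd
      have := hq2.2 p (hTp p hp).1 hd
      have := (hTp p hp).2.2
      omega
    rw [Finset.prod_congr rfl (fun p hp => by rw [hmm p hp]),
      Finset.sum_congr rfl (fun p hp => hmm p hp), ← hVdef, ← hUdef] at h1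
    refine h1.trans ?_
    have h2 := hE (2 * m + 1) (by omega)
    have h3 : 3 * (z : ℝ) ^ (2 * (2 * m + 1)) ≤ X / (L * Z) / 4 * V := by
      rw [show 2 * (2 * m + 1) = 4 * m + 2 by ring]; exact hErr2
    have h4 : (X : ℝ) / (L * Z) ≤ X / q := by gcongr
    have h5 : (X : ℝ) / (L * Z) / 4 * V ≤ X / q / 4 * V := by gcongr
    have h6 : ((X / q + 1 : ℕ) : ℝ) ≤ 2 * (X / q) := by
      push_cast
      have h7 : ((X / q : ℕ) : ℝ) ≤ X / q := Nat.cast_div_le
      have h8 : (1 : ℝ) ≤ X / q := by rw [one_le_div hq0]; linarith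
      linarith
    calc _ ≤ (2 * (X / q)) * (V + V / 4) + X / q / 4 * V := by
          have : ((X / q + 1 : ℕ) : ℝ) * (V + ((Real.exp 1)⁻¹) ^ (2 * m + 1)
            * Real.exp (Real.exp 1 * U)) ≤ (2 * (X / q)) * (V + V / 4) := by gcongr
          linarith
      _ ≤ 3 * (X * V) / q := by
          have h9 : (X : ℝ) / q / 4 * V = (X * V / q) / 4 := by ring
          have h10 : (2 * ((X : ℝ) / q)) * (V + V / 4) = (X * V / q) * (5 / 2) := by ring
          have h11 : 3 * ((X : ℝ) * V) / q = (X * V / q) * 3 := by ring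
          have h12 : 0 ≤ (X : ℝ) * V / q := by positivity
          rw [h9, h10, h11]
          linarith
  -- total
  by_contra hcon
  push Not at hcon
  have hB2 : ∑ t ∈ range X, G t ≤ ∑ s ∈ Icc 1 S, ∑ q ∈ Qs z Z L,
      ∑ t ∈ (range X).filter (fun t : ℕ => (q : ℤ) ∣ F s (M * (a + t))), G t := by
    have h1 : ∀ t ∈ range X, G t ≤ ∑ s ∈ Icc 1 S, ∑ q ∈ Qs z Z L,
        (if (q : ℤ) ∣ F s (M * (a + t)) then G t else 0) := by
      intro t ht
      have hnn : ∀ s ∈ Icc 1 S, 0 ≤ ∑ q ∈ Qs z Z L,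
        (if (q : ℤ) ∣ F s (M * (a + t)) then G t else 0) := fun s _ =>
          Finset.sum_nonneg (fun q _ => by split_ifs; exacts [hG0 t, le_rfl])
      by_cases h : ∀ p, p.Prime → w < p → p ≤ z → ∀ s ∈ Icc 1 S, ¬ (p : ℤ) ∣ F s (M * (a + t))
      · obtain ⟨s, hs, q, hq, hd⟩ := hcon t (Finset.mem_range.1 ht) h
        calc G t = (if (q : ℤ) ∣ F s (M * (a + t)) then G t else 0) := by rw [if_pos hd]
          _ ≤ ∑ q ∈ Qs z Z L, (if (q : ℤ) ∣ F s (M * (a + t)) then G t else 0) :=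
            Finset.single_le_sum
              (f := fun q : ℕ => if (q : ℤ) ∣ F s (M * (a + t)) then G t else 0)
              (fun q _ => by split_ifs; exacts [hG0 t, le_rfl]) hq
          _ ≤ _ := Finset.single_le_sum
              (f := fun s => ∑ q ∈ Qs z Z L, (if (q : ℤ) ∣ F s (M * (a + t)) then G t else 0))
              hnn hs
      · push Not at h
        obtain ⟨p, hp1, hp2, hp3, s, hs, hd⟩ := h
        have h2 : G t = 0 := by
          apply Finset.prod_eq_zero (i := p)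
          · rw [hT, Finset.mem_filter, Finset.mem_Icc]
            exact ⟨⟨hp1.one_le, hp3⟩, hp1, hp2⟩
          · simp only [hu, uu]
            rw [if_pos ((PF_dvd_iff S p hp1 _).2 ⟨s, hs, hd⟩), sub_self]
        rw [h2]
        rw [h2] at hnn
        exact Finset.sum_nonneg hnn
    refine (Finset.sum_le_sum h1).trans (le_of_eq ?_)
    rw [Finset.sum_comm]
    apply Finset.sum_congr rfl
    intro s _
    rw [Finset.sum_comm]
    apply Finset.sum_congr rfl
    intro q _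
    rw [Finset.sum_filter]
  have hB3 : ∀ s ∈ Icc 1 S, ∀ q ∈ Qs z Z L,
      ∑ t ∈ (range X).filter (fun t : ℕ => (q : ℤ) ∣ F s (M * (a + t))), G t
        ≤ 3 * (X * V) * ((q.divisors.card : ℝ) / q) := by
    intro s hs q hq
    have hq1 := Finset.mem_filter.1 hq
    have hq2 := (mem_rough _ _ _).1 hq1.1
    have hq0 : (0 : ℝ) < q := by exact_mod_cast hq2.1.1
    refine (class_sum q M a s X hq2.1.1 G hG0).trans ?_
    refine (Finset.sum_le_sum (fun t0 _ => hB1 q hq t0)).trans ?_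
    rw [Finset.sum_const, nsmul_eq_mul]
    have h1 : (roots q M a s).card ≤ q.divisors.card := by
      apply card_roots_le q M a s hq2.1.1
      · apply Nat.coprime_of_dvd
        intro p hp hpq hpM
        exact hM p hp (lt_of_le_of_lt hwz (hq2.2 p hp hpq)) hpM
      · intro p hp hpq hd
        have h3 := hq2.2 p hp hpq
        have h4 := Nat.le_of_dvd (by omega) hd
        rw [Finset.mem_Icc] at hs
        omega
    have h2 : ((roots q M a s).card : ℝ) ≤ q.divisors.card := by exact_mod_cast h1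
    calc ((roots q M a s).card : ℝ) * (3 * (X * V) / q)
        ≤ (q.divisors.card : ℝ) * (3 * (X * V) / q) := by gcongr
      _ = _ := by ring
  have hB4 : ∑ t ∈ range X, G t ≤ (X * V) * (3 * S *
      ∑ q ∈ Qs z Z L, (q.divisors.card : ℝ) / q) := by
    refine hB2.trans ?_
    calc _ ≤ ∑ s ∈ Icc 1 S, ∑ q ∈ Qs z Z L, 3 * (X * V) * ((q.divisors.card : ℝ) / q) :=
          Finset.sum_le_sum (fun s hs => Finset.sum_le_sum (fun q hq => hB3 s hs q hq))
      _ = _ := by
        rw [Finset.sum_const, nsmul_eq_mul, ← Finset.mul_sum, Nat.card_Icc, Nat.add_sub_cancel]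
        ring
  have hXV : 0 < (X : ℝ) * V := by positivity
  have h1 : (1 / 2 : ℝ) * (X * V) ≤ (X * V) * (3 * S *
      ∑ q ∈ Qs z Z L, (q.divisors.card : ℝ) / q) := hA.trans hB4
  have h2 : (1 / 2 : ℝ) ≤ 3 * S * ∑ q ∈ Qs z Z L, (q.divisors.card : ℝ) / q := by
    by_contra h3
    push Not at h3
    have := mul_lt_mul_of_pos_left h3 hXV
    linarith
  linarith

end Pool.Agent.H96R3.AE
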